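import Pool.Agent.Y750.PC.Fin

set_option autoImplicit false

/-! # Large scale pair correlation -/

open MeasureTheory Filter Topology Set

namespace Pool.Agent.Y750.PC

open Pool.Agent.TH801.LU (ZZ mem_ZZ ZZ_mono mu mu_nonneg mu_one)

lemma Pc_mono : Monotone Pc := by
  intro x y hxy
  have hq1 : ∀ u, 0 ≤ 1 - Real.sinc (Real.pi * u) ^ 2 := by
    intro u
    have h1 := Real.abs_sinc_le_one (Real.pi * u)
    have h2 := abs_le.1 h1
    nlinarith [h2.1, h2.2]
  have hcs : Continuous fun u : ℝ => 1 - Real.sinc (Real.pi * u) ^ 2 :=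
    continuous_const.sub q_cont
  unfold Pc
  have h1 : (∫ u in (0 : ℝ)..x, (1 - Real.sinc (Real.pi * u) ^ 2)) +
      ∫ u in x..y, (1 - Real.sinc (Real.pi * u) ^ 2) =
      ∫ u in (0 : ℝ)..y, (1 - Real.sinc (Real.pi * u) ^ 2) :=
    intervalIntegral.integral_add_adjacent_intervals (hcs.intervalIntegrable _ _)
      (hcs.intervalIntegrable _ _)
  have h2 : 0 ≤ ∫ u in x..y, (1 - Real.sinc (Real.pi * u) ^ 2) :=
    intervalIntegral.integral_nonneg hxy fun u _ => hq1 u
  linarith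

lemma Pc_nonneg {a : ℝ} (ha : 0 ≤ a) : 0 ≤ Pc a := by
  have h1 := Pc_mono ha
  have h2 : Pc 0 = 0 := by unfold Pc; simp
  linarith

lemma Pc_le {a : ℝ} (ha : 0 ≤ a) : Pc a ≤ a := by
  rw [Pc_eq]
  have := Qp_nonneg ha
  linarith

lemma nstar_ii {T : ℝ} (hT : 1 ≤ T) (x y : ℝ) :
    IntervalIntegrable (fun u => (nstar T u : ℝ)) volume x y := by
  have : Monotone fun u => (nstar T u : ℝ) := fun a b hab => by
    have := nstar_mono hT hab
    show (nstar T a : ℝ) ≤ (nstar T b : ℝ)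
    exact_mod_cast this
  exact this.intervalIntegrable

/-- everything about large scales for one `T` -/
theorem main (B : ℝ) (hB : 1 ≤ B) : ∃ C T0 : ℝ, 0 < C ∧ 16 ≤ T0 ∧ ∀ T : ℝ, T0 ≤ T →
    (∀ a : ℝ, 0 < a → a * Real.log a ≤ B * Real.log T →
      |(nstar T a : ℝ) - Pc a * NT T| ≤ C * (T * Real.log T)) ∧
    (∀ x y : ℝ, 0 ≤ x → x ≤ y → y * Real.log y ≤ B * Real.log T →
      |(∫ u in x..y, ((nstar T u : ℝ) - Pc u * NT T)) + (y - x) / 2 * ((neq T : ℝ) - NT T)| ≤
          C * (T * Real.log T + (y ^ 2 - x ^ 2) * T)) ∧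
    (∀ a : ℝ, 0 < a → a * Real.log a ≤ B * Real.log T →
      a / 2 * (nbad T : ℝ) ≤ (∫ u in (0 : ℝ)..a, (Pc u * NT T - (nstar T u : ℝ))) +
        C * (T * Real.log T + a ^ 2 * T)) := by
  obtain ⟨C, T0, hC, hT0, hp⟩ := pairs B hB
  obtain ⟨K, hK, hns⟩ := nstar_eq
  obtain ⟨C2, T2, hC2, hT2, hmass⟩ := mass
  set M1 := ∑ s ∈ ZZ 1, mu s with hM1
  have hM10 : 0 ≤ M1 := Finset.sum_nonneg fun s _ => mu_nonneg s
  have hpi := Real.pi_pos
  have hpi3 := Real.pi_gt_three
  have hpi4 := Real.pi_lt_d2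
  refine ⟨C + K + C2 + M1, max T0 T2, by positivity, hT0.trans (le_max_left _ _), fun T hT => ?_⟩
  have hTT0 : T0 ≤ T := (le_max_left _ _).trans hT
  have hTT2 : T2 ≤ T := (le_max_right _ _).trans hT
  have hT16 : 16 ≤ T := hT0.trans hTT0
  have hTpos : 0 < T := by linarith
  obtain ⟨p1, p2, p3⟩ := hp T hTT0
  have hL1 : 1 ≤ Real.log T := by
    rw [Real.le_log_iff_exp_le (by linarith)]
    linarith [Real.exp_one_lt_d9]
  have hm := hmass T hTT2
  set L := Real.log T with hL
  have hL0 : 0 < L := by linarith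
  have hTL : 1 ≤ T * L := by nlinarith
  have hLT : L ≤ T := by
    have := Real.log_le_sub_one_of_pos hTpos
    linarith
  have hs : ∀ a : ℝ, 0 < a → a * Real.log a ≤ B * L →
      Prn (ZZ T) mu (2 * Real.pi / L * a) ≤ (nstar T a : ℝ) ∧
      (nstar T a : ℝ) ≤ Prn (ZZ T) mu (2 * Real.pi / L * a) + K := by
    intro a ha haL
    apply hns
    rw [div_le_iff₀ hL0]
    have := p3 a ha haL
    nlinarith
  have h2 : ∀ x y : ℝ, 0 ≤ x → x ≤ y → y * Real.log y ≤ B * L →
      |(∫ u in x..y, ((nstar T u : ℝ) - Pc u * NT T)) + (y - x) / 2 * ((neq T : ℝ) - NT T)| ≤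
          (C + K) * (T * L + (y ^ 2 - x ^ 2) * T) := by
    intro x y hx hxy hy
    rcases hxy.eq_or_lt with h0 | h0
    · subst h0
      simp
      positivity
    have hy0 : 0 < y := by linarith
    have hyL : y ≤ L := p3 y hy0 hy
    have h1 := p1 x y hx hxy hy
    rw [neq_eq]
    have h3 : |(∫ u in x..y, ((nstar T u : ℝ) - Pc u * NT T)) -
        ∫ u in x..y, (Prn (ZZ T) mu (2 * Real.pi / L * u) - Pc u * NT T)| ≤ K * (T * L) := by
      rw [← intervalIntegral.integral_sub
        ((nstar_ii (by linarith) _ _).sub ((Pc_cont.intervalIntegrable _ _).mul_const _))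
        ((Prn_integrable _ _ _ _ _).sub ((Pc_cont.intervalIntegrable _ _).mul_const _))]
      have h4 := intervalIntegral.norm_integral_le_of_norm_le_const (a := x) (b := y)
        (f := fun u => ((nstar T u : ℝ) - Pc u * NT T) -
          (Prn (ZZ T) mu (2 * Real.pi / L * u) - Pc u * NT T)) (C := K) (fun u hu => by
            rw [uIoc_of_le hxy] at hu
            have hu0 : 0 < u := by linarith [hu.1]
            have h5 := hs u hu0 (rng_mono (by positivity) hu0.le hu.2 hy)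
            rw [Real.norm_eq_abs, abs_le]
            constructor <;> linarith [h5.1, h5.2])
      rw [Real.norm_eq_abs, abs_of_nonneg (by linarith : 0 ≤ y - x)] at h4
      refine h4.trans ?_
      apply mul_le_mul_of_nonneg_left _ hK
      nlinarith
    obtain ⟨I1, hI1⟩ : ∃ I, I = ∫ u in x..y, ((nstar T u : ℝ) - Pc u * NT T) := ⟨_, rfl⟩
    obtain ⟨I2, hI2⟩ : ∃ I, I = ∫ u in x..y,
      (Prn (ZZ T) mu (2 * Real.pi / L * u) - Pc u * NT T) := ⟨_, rfl⟩
    rw [← hI2] at h1 h3
    rw [← hI1] at h3 ⊢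
    have h6 : 0 ≤ (y ^ 2 - x ^ 2) * T := mul_nonneg (by nlinarith) hTpos.le
    have e1 : I1 + (y - x) / 2 * (Eqn (ZZ T) mu - NT T) = (I1 - I2) +
      (I2 + (y - x) / 2 * (Eqn (ZZ T) mu - NT T)) := by ring
    rw [e1]
    refine (abs_add_le _ _).trans ((add_le_add h3 h1).trans ?_)
    nlinarith [mul_nonneg hK h6]
  refine ⟨fun a ha haL => ?_, fun x y hx hxy hy => ?_, fun a ha haL => ?_⟩
  · have h1 := p2 a ha.le haL
    have h3 := hs a ha haL
    have e1 : (nstar T a : ℝ) - Pc a * NT T = ((nstar T a : ℝ) -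
      Prn (ZZ T) mu (2 * Real.pi / L * a)) + (Prn (ZZ T) mu (2 * Real.pi / L * a) - Pc a * NT T) := by
      ring
    rw [e1]
    have h4 : |(nstar T a : ℝ) - Prn (ZZ T) mu (2 * Real.pi / L * a)| ≤ K := by
      rw [abs_le]
      constructor <;> linarith [h3.1, h3.2]
    refine (abs_add_le _ _).trans ((add_le_add h4 h1).trans ?_)
    nlinarith [mul_nonneg hK (by linarith : 0 ≤ T * L - 1), mul_nonneg hC2.le (by linarith : 0 ≤ T * L),
      mul_nonneg hM10 (by linarith : 0 ≤ T * L)]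
  · refine (h2 x y hx hxy hy).trans ?_
    have h6 : 0 ≤ (y ^ 2 - x ^ 2) * T := mul_nonneg (by nlinarith) hTpos.le
    apply mul_le_mul_of_nonneg_right _ (by linarith)
    linarith
  · have h1 := h2 0 a le_rfl ha.le haL
    have h3 := eqn_ge T
    have h4 := nbad_le T
    rw [← neq_eq] at h3
    obtain ⟨S, hS⟩ : ∃ S, S = ∑ᶠ s ∈ {s : ℂ | s ∈ ZZ T ∧ 1 < s.im ∧ BadZ s}, mu s := ⟨_, rfl⟩
    rw [← hS] at h3 h4
    rw [← hM1] at h4
    have h5 : NT T = T * L / (2 * Real.pi) := rfl
    rw [← h5] at hm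
    have h7 : (nbad T : ℝ) ≤ (neq T : ℝ) - NT T + C2 * T + M1 := by linarith
    have h8 : ∫ u in (0 : ℝ)..a, (Pc u * NT T - (nstar T u : ℝ)) =
        -∫ u in (0 : ℝ)..a, ((nstar T u : ℝ) - Pc u * NT T) := by
      rw [← intervalIntegral.integral_neg]
      refine intervalIntegral.integral_congr fun u _ => ?_
      show Pc u * NT T - (nstar T u : ℝ) = -((nstar T u : ℝ) - Pc u * NT T)
      ring
    rw [h8]
    have h9 := (abs_le.1 h1).2
    have h10 : a / 2 * (nbad T : ℝ) ≤ a / 2 * ((neq T : ℝ) - NT T + C2 * T + M1) := by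
      apply mul_le_mul_of_nonneg_left h7 (by linarith)
    have haL1 : a ≤ L := p3 a ha haL
    have h11 : a / 2 * (C2 * T) ≤ C2 * (T * L) := by
      have : a / 2 ≤ L := by linarith
      calc a / 2 * (C2 * T) ≤ L * (C2 * T) := by gcongr
        _ = _ := by ring
    have h12 : a / 2 * M1 ≤ M1 * (T * L) := by
      have : a / 2 ≤ T * L := by nlinarith
      calc a / 2 * M1 ≤ T * L * M1 := by gcongr
        _ = _ := by ring
    have h13 : 0 ≤ a ^ 2 * T := by positivity
    have e2 : (a ^ 2 - 0 ^ 2) * T = a ^ 2 * T := by ring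
    have e3 : (a - 0) / 2 = a / 2 := by ring
    rw [e2, e3] at h9
    nlinarith [mul_nonneg hC2.le h13, mul_nonneg hM10 h13]

/-- the consequence for the zeros off the line or multiple -/
theorem cons : ∃ C : ℝ, 0 < C ∧ ∀ a0 : ℝ, 1 ≤ a0 →
    (∀ a : ℝ, 0 < a → a < a0 → Tendsto (fun T : ℝ => (nstar T a : ℝ) / (T * Real.log T)) atTop
      (𝓝 (Pc a / (2 * Real.pi)))) →
    ∀ᶠ T : ℝ in atTop, (nbad T : ℝ) ≤ C / a0 * NT T := by
  obtain ⟨C, T0, hC, hT0, hm⟩ := main 1 le_rfl
  have hpi := Real.pi_pos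
  have hpi3 := Real.pi_gt_three
  refine ⟨2 * (1 + 4 * Real.pi * C), by positivity, fun a0 ha0 hlim => ?_⟩
  have ha00 : 0 < a0 := by linarith
  -- dominated convergence
  have hev : ∀ᶠ T : ℝ in atTop, T0 ≤ T ∧ a0 * Real.log a0 ≤ 1 * Real.log T ∧
      a0 ^ 2 ≤ Real.log T := by
    refine (eventually_ge_atTop _).and (?_)
    have h1 := Real.tendsto_log_atTop.eventually_ge_atTop (a0 * Real.log a0)
    have h2 := Real.tendsto_log_atTop.eventually_ge_atTop (a0 ^ 2)
    filter_upwards [h1, h2] with T h1 h2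
    exact ⟨by linarith, h2⟩
  have hNTpos : ∀ T : ℝ, 16 ≤ T → 0 < NT T := by
    intro T hT
    have : 0 < Real.log T := Real.log_pos (by linarith)
    unfold NT
    positivity
  have hdct : Tendsto (fun T : ℝ => ∫ u in (0 : ℝ)..a0, (Pc u - (nstar T u : ℝ) / NT T)) atTop
      (𝓝 (∫ u in (0 : ℝ)..a0, (0 : ℝ))) := by
    refine intervalIntegral.tendsto_integral_filter_of_dominated_convergence
      (fun _ => 2 * a0 + 2 * Real.pi * C) ?_ ?_ intervalIntegrable_const ?_
    · filter_upwards [hev] with T hT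
      have h1 := ((Pc_cont.intervalIntegrable (μ := volume) 0 a0).sub
        ((nstar_ii (T := T) (by linarith) 0 a0).div_const (NT T)))
      rw [intervalIntegrable_iff] at h1
      exact h1.aestronglyMeasurable
    · filter_upwards [hev] with T hT
      refine Filter.Eventually.of_forall fun u hu => ?_
      rw [uIoc_of_le ha00.le] at hu
      have hT16 : 16 ≤ T := by linarith
      have hN := hNTpos T hT16
      have h1 := (hm T hT.1).1 a0 ha00 hT.2.1
      have h2 : (nstar T u : ℝ) ≤ (nstar T a0 : ℝ) := by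
        exact_mod_cast nstar_mono (by linarith) hu.2
      have h3 : 0 ≤ Pc u := Pc_nonneg hu.1.le
      have h4 : Pc u ≤ a0 := (Pc_le hu.1.le).trans hu.2
      have h5 : Pc a0 ≤ a0 := Pc_le ha00.le
      have h6 : C * (T * Real.log T) = 2 * Real.pi * C * NT T := by
        unfold NT
        field_simp
      rw [h6] at h1
      have h7 : (nstar T u : ℝ) / NT T ≤ a0 + 2 * Real.pi * C := by
        rw [div_le_iff₀ hN]
        have := (abs_le.1 h1).2
        nlinarith
      have h8 : 0 ≤ (nstar T u : ℝ) / NT T := by positivity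
      rw [Real.norm_eq_abs, abs_le]
      have : 0 < Real.pi * C := by positivity
      constructor <;> linarith
    · have hne : ∀ᵐ u ∂(volume : Measure ℝ), u ≠ a0 := by simp [ae_iff]
      filter_upwards [hne] with u hune hu
      rw [uIoc_of_le ha00.le] at hu
      have h : u < a0 := lt_of_le_of_ne hu.2 hune
      · have h1 := hlim u hu.1 h
        have h2 := (h1.const_mul (2 * Real.pi)).const_sub (Pc u)
        have e : Pc u - 2 * Real.pi * (Pc u / (2 * Real.pi)) = 0 := by field_simp; ring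
        rw [e] at h2
        refine h2.congr fun T => ?_
        unfold NT
        by_cases hz : T * Real.log T = 0
        · rw [hz]; simp
        · field_simp
  rw [intervalIntegral.integral_zero] at hdct
  have h1 := (tendsto_order.1 hdct).2 1 one_pos
  filter_upwards [h1, hev] with T hT hT2
  have hT16 : 16 ≤ T := by linarith
  have hN := hNTpos T hT16
  have h3 := (hm T hT2.1).2.2 a0 ha00 hT2.2.1
  have e1 : ∫ u in (0 : ℝ)..a0, (Pc u * NT T - (nstar T u : ℝ)) =
      NT T * ∫ u in (0 : ℝ)..a0, (Pc u - (nstar T u : ℝ) / NT T) := by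
    rw [← intervalIntegral.integral_const_mul]
    refine intervalIntegral.integral_congr fun u _ => ?_
    show Pc u * NT T - (nstar T u : ℝ) = NT T * (Pc u - (nstar T u : ℝ) / NT T)
    field_simp
  rw [e1] at h3
  have h4 : NT T * (∫ u in (0 : ℝ)..a0, (Pc u - (nstar T u : ℝ) / NT T)) ≤ NT T * 1 :=
    mul_le_mul_of_nonneg_left hT.le hN.le
  have h6 : C * (T * Real.log T + a0 ^ 2 * T) ≤ 4 * Real.pi * C * NT T := by
    have e : 4 * Real.pi * C * NT T = C * (T * Real.log T + Real.log T * T) := by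
      unfold NT
      field_simp
      ring
    rw [e]
    have hTpos : 0 < T := by linarith
    have := hT2.2.2
    gcongr
  have h7 : a0 / 2 * (nbad T : ℝ) ≤ (1 + 4 * Real.pi * C) * NT T := by linarith
  rw [div_mul_eq_mul_div, le_div_iff₀ ha00]
  linarith

/-- the averages of the conjecture and the zeros with the same ordinate -/
theorem equiv : (∀ ε : ℝ, 0 < ε → ∃ a1 : ℝ, ∀ a : ℝ, a1 ≤ a → ∀ᶠ T : ℝ in atTop,
      |(1 / a) * ∫ u in (0 : ℝ)..a, ((nstar T u : ℝ) - Pc u * NT T)| ≤ ε * NT T) ↔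
    Tendsto (fun T : ℝ => (neq T : ℝ) / NT T) atTop (𝓝 1) := by
  obtain ⟨C, T0, hC, hT0, hm⟩ := main 1 le_rfl
  have hpi := Real.pi_pos
  have hpi3 := Real.pi_gt_three
  have hNTpos : ∀ T : ℝ, 16 ≤ T → 0 < NT T := by
    intro T hT
    have : 0 < Real.log T := Real.log_pos (by linarith)
    unfold NT
    positivity
  -- the basic inequality for fixed `a`
  have key : ∀ a : ℝ, 1 ≤ a → ∀ᶠ T : ℝ in atTop, 16 ≤ T ∧
      |(1 / a) * (∫ u in (0 : ℝ)..a, ((nstar T u : ℝ) - Pc u * NT T)) +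
        ((neq T : ℝ) - NT T) / 2| ≤ 4 * Real.pi * C / a * NT T := by
    intro a ha
    have ha0 : 0 < a := by linarith
    have hev : ∀ᶠ T : ℝ in atTop, T0 ≤ T ∧ a * Real.log a ≤ 1 * Real.log T ∧
        a ^ 2 ≤ Real.log T := by
      refine (eventually_ge_atTop _).and (?_)
      have h1 := Real.tendsto_log_atTop.eventually_ge_atTop (a * Real.log a)
      have h2 := Real.tendsto_log_atTop.eventually_ge_atTop (a ^ 2)
      filter_upwards [h1, h2] with T h1 h2
      exact ⟨by linarith, h2⟩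
    filter_upwards [hev] with T hT
    refine ⟨by linarith, ?_⟩
    have h3 := (hm T hT.1).2.1 0 a le_rfl ha0.le hT.2.1
    obtain ⟨I, hI⟩ : ∃ I, I = ∫ u in (0 : ℝ)..a, ((nstar T u : ℝ) - Pc u * NT T) := ⟨_, rfl⟩
    rw [← hI] at h3 ⊢
    have e1 : (1 / a) * I + ((neq T : ℝ) - NT T) / 2 =
        (1 / a) * (I + (a - 0) / 2 * ((neq T : ℝ) - NT T)) := by
      field_simp
      ring
    rw [e1, abs_mul, abs_of_pos (by positivity : 0 < 1 / a)]
    have hTpos : 0 < T := by linarith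
    have h4 : C * (T * Real.log T + (a ^ 2 - 0 ^ 2) * T) ≤ 4 * Real.pi * C * NT T := by
      have e : 4 * Real.pi * C * NT T = C * (T * Real.log T + Real.log T * T) := by
        unfold NT
        field_simp
        ring
      rw [e]
      have := hT.2.2
      have h5 : (a ^ 2 - 0 ^ 2) ≤ Real.log T := by linarith
      gcongr
    calc 1 / a * |I + (a - 0) / 2 * ((neq T : ℝ) - NT T)| ≤
        1 / a * (4 * Real.pi * C * NT T) := by
          apply mul_le_mul_of_nonneg_left (h3.trans h4) (by positivity)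
      _ = _ := by ring
  constructor
  · intro h
    rw [Metric.tendsto_nhds]
    intro ε hε
    obtain ⟨a1, ha1⟩ := h (ε / 8) (by positivity)
    obtain ⟨a, ha⟩ : ∃ a, a = max a1 (max 1 (32 * Real.pi * C / ε)) := ⟨_, rfl⟩
    have h1 : a1 ≤ a := by rw [ha]; exact le_max_left _ _
    have h2 : 1 ≤ a := by rw [ha]; exact (le_max_left _ _).trans (le_max_right _ _)
    have h3 : 32 * Real.pi * C / ε ≤ a := by
      rw [ha]; exact (le_max_right _ _).trans (le_max_right _ _)
    have ha0 : 0 < a := by linarith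
    have h4 : 4 * Real.pi * C / a ≤ ε / 8 := by
      rw [div_le_iff₀ hε] at h3
      rw [div_le_div_iff₀ ha0 (by norm_num)]
      linarith
    filter_upwards [ha1 a h1, key a h2] with T hT1 hT2
    obtain ⟨hT16, hT2⟩ := hT2
    have hN := hNTpos T hT16
    obtain ⟨I, hI⟩ : ∃ I, I = (1 / a) * ∫ u in (0 : ℝ)..a, ((nstar T u : ℝ) - Pc u * NT T) :=
      ⟨_, rfl⟩
    rw [← hI] at hT1 hT2
    have h5 : 4 * Real.pi * C / a * NT T ≤ ε / 8 * NT T := by gcongr
    have h6 := abs_le.1 hT1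
    have h7 := abs_le.1 (hT2.trans h5)
    have h8 : |(neq T : ℝ) - NT T| ≤ ε / 2 * NT T := by
      rw [abs_le]
      constructor <;> linarith [h6.1, h6.2, h7.1, h7.2]
    rw [Real.dist_eq]
    have e1 : (neq T : ℝ) / NT T - 1 = ((neq T : ℝ) - NT T) / NT T := by field_simp
    rw [e1, abs_div, abs_of_pos hN, div_lt_iff₀ hN]
    have : 0 < ε * NT T := by positivity
    linarith
  · intro h ε hε
    refine ⟨max 1 (8 * Real.pi * C / ε), fun a ha => ?_⟩
    have h2 : 1 ≤ a := (le_max_left _ _).trans ha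
    have h3 : 8 * Real.pi * C / ε ≤ a := (le_max_right _ _).trans ha
    have ha0 : 0 < a := by linarith
    have h4 : 4 * Real.pi * C / a ≤ ε / 2 := by
      rw [div_le_iff₀ hε] at h3
      rw [div_le_div_iff₀ ha0 (by norm_num)]
      linarith
    rw [Metric.tendsto_nhds] at h
    filter_upwards [h ε hε, key a h2] with T hT1 hT2
    obtain ⟨hT16, hT2⟩ := hT2
    have hN := hNTpos T hT16
    rw [Real.dist_eq] at hT1
    have e1 : (neq T : ℝ) / NT T - 1 = ((neq T : ℝ) - NT T) / NT T := by field_simp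
    rw [e1, abs_div, abs_of_pos hN, div_lt_iff₀ hN] at hT1
    obtain ⟨I, hI⟩ : ∃ I, I = (1 / a) * ∫ u in (0 : ℝ)..a, ((nstar T u : ℝ) - Pc u * NT T) :=
      ⟨_, rfl⟩
    rw [← hI] at hT2 ⊢
    have h5 : 4 * Real.pi * C / a * NT T ≤ ε / 2 * NT T := by gcongr
    have h6 := abs_lt.1 hT1
    have h7 := abs_le.1 (hT2.trans h5)
    rw [abs_le]
    constructor <;> linarith [h6.1, h6.2, h7.1, h7.2]

end Pool.Agent.Y750.PC
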