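import Pool.Agent.Y750.PC.Loc

set_option autoImplicit false

/-! # Zeros that are multiple or off the critical line, and the mass -/

open MeasureTheory Filter Topology Set

namespace Pool.Agent.Y750.PC

open Pool.Agent.TH801.LU (ZZ mem_ZZ ZZ_mono mu mu_nonneg mu_one)
open H370 (Zf zset mem_Zf good_zeta NN NN_eq nn_asymp mult mult_refl zset_refl)

/-- multiple or off the critical line -/
def BadZ (s : ℂ) : Prop := s.re ≠ 1 / 2 ∨ deriv riemannZeta s = 0

lemma mult_two {s : ℂ} (hs : 0 < s.im) (h0 : riemannZeta s = 0) (h1 : deriv riemannZeta s = 0) :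
    2 ≤ mult riemannZeta s := by
  have han : AnalyticAt ℂ riemannZeta s := good_zeta.an s hs
  have hpos : 1 ≤ mult riemannZeta s := H370.Loc.mult_pos' good_zeta hs h0
  have hne : analyticOrderAt riemannZeta s ≠ ⊤ := by
    intro h
    unfold mult analyticOrderNatAt at hpos
    rw [h] at hpos
    simp at hpos
  have h2 := han.analyticOrderAt_deriv_add_one
  have h3 : (fun z => riemannZeta z - riemannZeta s) = riemannZeta := by
    ext z; rw [h0, sub_zero]
  rw [h3] at h2
  have h4 : analyticOrderAt (deriv riemannZeta) s ≠ 0 :=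
    han.deriv.analyticOrderAt_ne_zero.mpr h1
  have h5 : (1 : ℕ∞) ≤ analyticOrderAt (deriv riemannZeta) s := ENat.one_le_iff_ne_zero.2 h4
  have h6 : (2 : ℕ∞) ≤ analyticOrderAt riemannZeta s := by
    rw [← h2]
    calc (2 : ℕ∞) = 1 + 1 := by norm_num
      _ ≤ _ := by gcongr
  rw [← Nat.cast_analyticOrderNatAt hne] at h6
  unfold mult
  exact_mod_cast h6

/-- the bad zeros have other zeros with the same ordinate -/
lemma bad_two {T : ℝ} {s : ℂ} (hs : s ∈ ZZ T) (h1 : 1 < s.im) (hb : BadZ s) :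
    2 ≤ ∑ w ∈ ZZ T, mu w * (if s.im = w.im then 1 else 0) := by
  classical
  have hnn : ∀ w ∈ ZZ T, 0 ≤ mu w * (if s.im = w.im then (1 : ℝ) else 0) := fun w _ =>
    mul_nonneg (mu_nonneg w) (by split_ifs <;> norm_num)
  have hs' := hs
  rw [mem_ZZ] at hs'
  obtain ⟨a1, a2, a3, a4, a5⟩ := hs'
  by_cases hd : deriv riemannZeta s = 0
  · have h2 : 2 ≤ mu s := by
      have := mult_two a3 a5 hd
      unfold mu
      exact_mod_cast this
    refine h2.trans ?_
    have := Finset.single_le_sum hnn hs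
    rw [if_pos rfl, mul_one] at this
    exact this
  · have hre : s.re ≠ 1 / 2 := by
      rcases hb with h | h
      · exact h
      · exact absurd h hd
    set w : ℂ := 1 - (starRingEnd ℂ) s with hw
    have him : w.im = s.im := by simp [hw]
    have hwre : w.re = 1 - s.re := by simp [hw]
    have hwz : w ∈ zset riemannZeta 1 T :=
      zset_refl good_zeta le_rfl (s := s) ⟨a1, a2, h1, a4, a5⟩
    have hwm : w ∈ ZZ T := by
      rw [mem_ZZ]
      exact ⟨hwz.1, hwz.2.1, by linarith [hwz.2.2.1], hwz.2.2.2.1, hwz.2.2.2.2⟩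
    have hne : s ≠ w := by
      intro h
      apply hre
      have : s.re = 1 - s.re := by rw [← hwre, ← h]
      linarith
    have h2 : ∑ z ∈ ({s, w} : Finset ℂ), mu z * (if s.im = z.im then (1 : ℝ) else 0) ≤
        ∑ z ∈ ZZ T, mu z * (if s.im = z.im then (1 : ℝ) else 0) := by
      refine Finset.sum_le_sum_of_subset_of_nonneg ?_ fun z hz _ => hnn z hz
      intro z hz
      rw [Finset.mem_insert, Finset.mem_singleton] at hz
      rcases hz with rfl | rfl
      · exact hs
      · exact hwm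
    rw [Finset.sum_pair hne, if_pos rfl, if_pos him.symm, mul_one, mul_one] at h2
    have := mu_one hs
    have := mu_one hwm
    linarith

/-- the pairs of equal ordinates -/
theorem eqn_ge (T : ℝ) : ∑ s ∈ ZZ T, mu s +
    (∑ᶠ s ∈ {s : ℂ | s ∈ ZZ T ∧ 1 < s.im ∧ BadZ s}, mu s) ≤ Eqn (ZZ T) mu := by
  classical
  have e1 : ∑ᶠ s ∈ {s : ℂ | s ∈ ZZ T ∧ 1 < s.im ∧ BadZ s}, mu s =
      ∑ s ∈ ZZ T, (if 1 < s.im ∧ BadZ s then mu s else 0) := by
    have h1 : {s : ℂ | s ∈ ZZ T ∧ 1 < s.im ∧ BadZ s} =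
        ↑((ZZ T).filter (fun s => 1 < s.im ∧ BadZ s)) := by
      ext s
      simp
    rw [h1, finsum_mem_coe_finset, Finset.sum_filter]
  rw [e1, ← Finset.sum_add_distrib]
  unfold Eqn
  refine Finset.sum_le_sum fun s hs => ?_
  have e2 : ∑ w ∈ ZZ T, mu s * mu w * (if s.im = w.im then (1 : ℝ) else 0) =
      mu s * ∑ w ∈ ZZ T, mu w * (if s.im = w.im then 1 else 0) := by
    rw [Finset.mul_sum]
    refine Finset.sum_congr rfl fun w _ => by ring
  rw [e2]
  have hm := mu_nonneg s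
  by_cases hb : 1 < s.im ∧ BadZ s
  · rw [if_pos hb]
    have := bad_two hs hb.1 hb.2
    nlinarith
  · rw [if_neg hb, add_zero]
    have hnn : ∀ w ∈ ZZ T, 0 ≤ mu w * (if s.im = w.im then (1 : ℝ) else 0) := fun w _ =>
      mul_nonneg (mu_nonneg w) (by split_ifs <;> norm_num)
    have h2 := Finset.single_le_sum hnn hs
    rw [if_pos rfl, mul_one] at h2
    have := mu_one hs
    nlinarith

/-- the number of zeros -/
theorem mass : ∃ C T0 : ℝ, 0 < C ∧ 16 ≤ T0 ∧ ∀ T : ℝ, T0 ≤ T →
    T * Real.log T / (2 * Real.pi) - C * T ≤ ∑ s ∈ ZZ T, mu s := by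
  obtain ⟨C1, T2, hC1, hT2, hnn⟩ := nn_asymp good_zeta
  have hpi := Real.pi_pos
  have hpi3 := Real.pi_gt_three
  have ev : ∀ᶠ T : ℝ in atTop, Real.log T ≤ Real.sqrt T := by
    have h1 : (fun x : ℝ => Real.log x) =o[atTop] fun x => x ^ (1 / 2 : ℝ) :=
      isLittleO_log_rpow_atTop (by norm_num)
    have h3 := h1.def (c := 1) one_pos
    filter_upwards [h3, eventually_ge_atTop 1] with T hT hT1
    rw [one_mul, Real.norm_of_nonneg (Real.log_nonneg hT1), ← Real.sqrt_eq_rpow,
      Real.norm_of_nonneg (Real.sqrt_nonneg T)] at hT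
    exact hT
  obtain ⟨T3, hT3⟩ := ev.exists_forall_of_atTop
  refine ⟨C1 + 4, max (max T3 (T2 ^ 2)) 16, by positivity, le_max_right _ _, fun T hT => ?_⟩
  have hTT3 : T3 ≤ T := ((le_max_left _ _).trans (le_max_left _ _)).trans hT
  have hTT2 : T2 ^ 2 ≤ T := ((le_max_right _ _).trans (le_max_left _ _)).trans hT
  have hT16 : 16 ≤ T := (le_max_right _ _).trans hT
  have hTpos : 0 < T := by linarith
  have hls := hT3 T hTT3
  set L := Real.log T with hL
  have hL0 : 0 < L := Real.log_pos (by linarith)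
  have hsq : Real.sqrt T * Real.sqrt T = T := Real.mul_self_sqrt hTpos.le
  have hs4 : 4 ≤ Real.sqrt T := Real.le_sqrt_of_sq_le (by linarith)
  obtain ⟨J, hJ1, hJ2⟩ := exists_nat_pow_near (by linarith : 1 ≤ Real.sqrt T)
    (one_lt_two : (1 : ℝ) < 2)
  have hXlow : Real.sqrt T ≤ T / 2 ^ J := by
    rw [le_div_iff₀ (by positivity)]
    calc Real.sqrt T * 2 ^ J ≤ Real.sqrt T * Real.sqrt T := by gcongr
      _ = T := hsq
  have hXup : T / 2 ^ J ≤ 2 * Real.sqrt T := by
    rw [div_le_iff₀ (by positivity)]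
    have : (2 : ℝ) ^ (J + 1) = 2 * 2 ^ J := by rw [pow_succ]; ring
    rw [this] at hJ2
    calc T = Real.sqrt T * Real.sqrt T := hsq.symm
      _ ≤ Real.sqrt T * (2 * 2 ^ J) := by gcongr
      _ = _ := by ring
  have hl2 : Real.log 2 ≤ 1 := by have := Real.log_two_lt_d9; linarith
  have hl20 : 0 < Real.log 2 := Real.log_pos (by norm_num)
  have hblk : ∀ j < J, Real.sqrt T ≤ T / 2 ^ (j + 1) := by
    intro j hj
    refine hXlow.trans ?_
    apply div_le_div_of_nonneg_left hTpos.le (by positivity)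
    exact pow_le_pow_right₀ (by norm_num) (by omega)
  -- the sum over the blocks
  have h1 : ∀ n ≤ J, ∑ s ∈ ZZ (T / 2 ^ n), mu s + ∑ j ∈ Finset.range n,
      (NN riemannZeta (T / 2 ^ (j + 1)) (2 * (T / 2 ^ (j + 1))) : ℝ) ≤ ∑ s ∈ ZZ T, mu s := by
    intro n
    induction n with
    | zero => intro _; simp
    | succ n ih =>
      intro hn
      have h2 := ih (by omega)
      have h3 := hblk n (by omega)
      have h4 := Pool.Agent.TH801.LU.split (M := ℝ) (a := T / 2 ^ (n + 1)) (b := T / 2 ^ n)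
        (by linarith) (by
          apply div_le_div_of_nonneg_left hTpos.le (by positivity)
          exact pow_le_pow_right₀ (by norm_num) (by omega)) mu
      rw [h4] at h2
      rw [Finset.sum_range_succ, NN_eq good_zeta (U1 := T / 2 ^ (n + 1)) (by linarith),
        Nat.cast_sum]
      have e : 2 * (T / 2 ^ (n + 1)) = T / 2 ^ n := by rw [pow_succ]; field_simp
      rw [e]
      have e3 : ∑ s ∈ Zf riemannZeta (T / 2 ^ (n + 1)) (T / 2 ^ n), mu s =
        ∑ s ∈ Zf riemannZeta (T / 2 ^ (n + 1)) (T / 2 ^ n), (mult riemannZeta s : ℝ) := rfl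
      rw [e3] at h2
      linarith
  have h2 := h1 J le_rfl
  have h3 : 0 ≤ ∑ s ∈ ZZ (T / 2 ^ J), mu s := Finset.sum_nonneg fun s _ => mu_nonneg s
  have h4 : ∀ j ∈ Finset.range J, T / 2 ^ (j + 1) * (L / (2 * Real.pi) - C1) -
      T / 2 ^ (j + 1) * ((j : ℝ) + 1) ≤
      (NN riemannZeta (T / 2 ^ (j + 1)) (2 * (T / 2 ^ (j + 1))) : ℝ) := by
    intro j hj
    rw [Finset.mem_range] at hj
    have h5 := hblk j hj
    have h6 := hnn (T / 2 ^ (j + 1)) ((Real.le_sqrt_of_sq_le hTT2).trans h5) (T / 2 ^ (j + 1))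
      (2 * (T / 2 ^ (j + 1))) le_rfl (by linarith) (by linarith) le_rfl
    have h7 := (abs_le.1 h6).1
    have h8 : Real.log (T / 2 ^ (j + 1)) = L - ((j : ℝ) + 1) * Real.log 2 := by
      rw [Real.log_div hTpos.ne' (by positivity), Real.log_pow, ← hL]
      push_cast
      ring
    rw [h8] at h7
    have hU : 0 < T / 2 ^ (j + 1) := by positivity
    obtain ⟨U, hUe⟩ : ∃ U, U = T / 2 ^ (j + 1) := ⟨_, rfl⟩
    rw [← hUe] at h7 hU ⊢
    have h9 : U * (L - ((j : ℝ) + 1) * Real.log 2) / (2 * Real.pi) =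
        U * (L / (2 * Real.pi)) - U * ((j : ℝ) + 1) * (Real.log 2 / (2 * Real.pi)) := by
      field_simp
    have h10 : Real.log 2 / (2 * Real.pi) ≤ 1 := by
      rw [div_le_one (by positivity)]
      linarith
    have h11 : U * ((j : ℝ) + 1) * (Real.log 2 / (2 * Real.pi)) ≤ U * ((j : ℝ) + 1) * 1 :=
      mul_le_mul_of_nonneg_left h10 (by positivity)
    rw [h9] at h7
    have e4 : U * (L / (2 * Real.pi) - C1) = U * (L / (2 * Real.pi)) - C1 * U := by ring
    rw [e4]
    linarith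
  have h5 := Finset.sum_le_sum h4
  rw [Finset.sum_sub_distrib, ← Finset.sum_mul, dyadic_sum] at h5
  have h6 := dyadic_sum2 hTpos.le J
  have h7 : T / 2 ^ J * (L / (2 * Real.pi) - C1) ≤ 2 * T := by
    have hX0 : 0 < T / 2 ^ J := by positivity
    have h8 : L / (2 * Real.pi) ≤ L := by
      apply div_le_self hL0.le
      linarith
    calc T / 2 ^ J * (L / (2 * Real.pi) - C1) ≤ T / 2 ^ J * L := by
          apply mul_le_mul_of_nonneg_left _ hX0.le
          linarith
      _ ≤ (2 * Real.sqrt T) * Real.sqrt T := by gcongr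
      _ = 2 * T := by rw [mul_assoc, hsq]
  have e5 : T * L / (2 * Real.pi) - (C1 + 4) * T = T * (L / (2 * Real.pi) - C1) - 4 * T := by
    ring
  rw [e5]
  have e6 : (T - T / 2 ^ J) * (L / (2 * Real.pi) - C1) = T * (L / (2 * Real.pi) - C1) -
      T / 2 ^ J * (L / (2 * Real.pi) - C1) := by ring
  rw [e6] at h5
  linarith

end Pool.Agent.Y750.PC
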