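import Pool.Agent.Y750.PC.Comb

set_option autoImplicit false

/-! # First moments of the window counts and the sum over dyadic blocks -/

open MeasureTheory Filter Topology Set

namespace Pool.Agent.Y750.PC

lemma Wn_nonneg (S : Finset ℂ) {μ : ℂ → ℝ} (hμ : ∀ s, 0 ≤ μ s) (h t : ℝ) : 0 ≤ Wn S μ h t := by
  unfold Wn
  refine Finset.sum_nonneg fun s _ => mul_nonneg (hμ s) ?_
  split_ifs <;> norm_num

lemma Wn_le (S : Finset ℂ) {μ : ℂ → ℝ} (hμ : ∀ s, 0 ≤ μ s) (h t : ℝ) :
    Wn S μ h t ≤ ∑ s ∈ S, μ s := by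
  unfold Wn
  refine Finset.sum_le_sum fun s _ => ?_
  have := hμ s
  split_ifs
  · rw [mul_one]
  · rw [mul_zero]; exact this

lemma Wn_meas (S : Finset ℂ) (μ : ℂ → ℝ) (h : ℝ) : Measurable (Wn S μ h) := by
  unfold Wn
  refine Finset.measurable_sum _ fun s _ => measurable_const.mul ?_
  refine Measurable.ite ?_ measurable_const measurable_const
  exact (measurableSet_lt measurable_id measurable_const).inter
    (measurableSet_le measurable_const (measurable_id.add_const h))

lemma Wn_subset {S S' : Finset ℂ} (hS : S ⊆ S') {μ : ℂ → ℝ} (hμ : ∀ s, 0 ≤ μ s) (h t : ℝ) :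
    Wn S μ h t ≤ Wn S' μ h t := by
  unfold Wn
  refine Finset.sum_le_sum_of_subset_of_nonneg hS fun s _ _ => mul_nonneg (hμ s) ?_
  split_ifs <;> norm_num

lemma bdd_integrable {f : ℝ → ℝ} (hf : Measurable f) {M : ℝ} (hM : ∀ t, |f t| ≤ M) (A B : ℝ) :
    IntervalIntegrable f volume A B := by
  refine (intervalIntegrable_const (c := M)).mono_fun hf.aestronglyMeasurable ?_
  refine Filter.Eventually.of_forall fun t => ?_
  show ‖f t‖ ≤ ‖M‖
  rw [Real.norm_eq_abs, Real.norm_eq_abs]
  exact (hM t).trans (le_abs_self M)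

lemma Wn_ii (S : Finset ℂ) {μ : ℂ → ℝ} (hμ : ∀ s, 0 ≤ μ s) (h A B : ℝ) :
    IntervalIntegrable (Wn S μ h) volume A B :=
  bdd_integrable (Wn_meas S μ h) (M := ∑ s ∈ S, μ s) (fun t => by
    rw [abs_of_nonneg (Wn_nonneg S hμ h t)]
    exact Wn_le S hμ h t) A B

lemma Wn_sq_ii (S : Finset ℂ) {μ : ℂ → ℝ} (h A B : ℝ) :
    IntervalIntegrable (fun t => Wn S μ h t ^ 2) volume A B :=
  (Wn_sq_integrable S μ h).intervalIntegrable

lemma omega_eq (g h U V : ℝ) (hUV : U ≤ V) :
    ∫ t in U..V, (if t < g ∧ g ≤ t + h then (1 : ℝ) else 0) =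
      max 0 (min V g - max U (g - h)) := by
  have e : (fun t : ℝ => if t < g ∧ g ≤ t + h then (1 : ℝ) else 0) =
      (Ico (g - h) g).indicator (fun _ => (1 : ℝ)) := by
    ext t
    by_cases h1 : t < g ∧ g ≤ t + h
    · rw [if_pos h1, Set.indicator_of_mem]
      exact ⟨by linarith [h1.2], h1.1⟩
    · rw [if_neg h1, Set.indicator_of_notMem]
      intro h3
      exact h1 ⟨h3.2, by linarith [h3.1]⟩
  rw [e, intervalIntegral.integral_of_le hUV, setIntegral_indicator measurableSet_Ico,
    setIntegral_const, smul_eq_mul, mul_one, measureReal_def]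
  have e2 : volume (Ioc U V ∩ Ico (g - h) g) = volume (Ioc U V ∩ Ioc (g - h) g) :=
    measure_congr (ae_eq_set_inter (Filter.EventuallyEq.refl _ _) Ico_ae_eq_Ioc)
  rw [e2, Set.Ioc_inter_Ioc, Real.volume_Ioc, ENNReal.toReal_ofReal', max_comm]

lemma omega_bound (g h U V : ℝ) (hh : 0 ≤ h) (hUV : U + h ≤ V) :
    |max 0 (min V g - max U (g - h)) - h * (if U < g ∧ g ≤ V then 1 else 0)| ≤
      h * ((if U < g ∧ g ≤ U + h then 1 else 0) + (if V < g ∧ g ≤ V + h then 1 else 0)) := by
  rcases le_or_gt g U with h1 | h1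
  · rw [if_neg (fun H => absurd H.1 (not_lt.2 h1)), if_neg (fun H => absurd H.1 (not_lt.2 h1)),
      if_neg (fun H => absurd H.1 (not_lt.2 (by linarith)))]
    have e1 : min V g = g := min_eq_right (by linarith)
    have e2 : max U (g - h) = U := max_eq_left (by linarith)
    rw [e1, e2, max_eq_left (by linarith)]
    simp
  rcases le_or_gt g (U + h) with h2 | h2
  · rw [if_pos ⟨h1, by linarith⟩, if_pos ⟨h1, h2⟩,
      if_neg (fun H => absurd H.1 (not_lt.2 (by linarith)))]
    have e1 : min V g = g := min_eq_right (by linarith)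
    have e2 : max U (g - h) = U := max_eq_left (by linarith)
    rw [e1, e2, max_eq_right (by linarith), abs_le]
    constructor <;> linarith
  rcases le_or_gt g V with h3 | h3
  · rw [if_pos ⟨h1, h3⟩, if_neg (fun H => absurd H.2 (not_le.2 h2)),
      if_neg (fun H => absurd H.1 (not_lt.2 h3))]
    have e1 : min V g = g := min_eq_right h3
    have e2 : max U (g - h) = g - h := max_eq_right (by linarith)
    rw [e1, e2, max_eq_right (by linarith), abs_le]
    constructor <;> linarith
  rcases le_or_gt g (V + h) with h4 | h4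
  · rw [if_neg (fun H => absurd H.2 (not_le.2 h3)), if_neg (fun H => absurd H.2 (not_le.2 h2)),
      if_pos ⟨h3, h4⟩]
    have e1 : min V g = V := min_eq_left h3.le
    have e2 : max U (g - h) = g - h := max_eq_right (by linarith)
    rw [e1, e2, max_eq_right (by linarith), abs_le]
    constructor <;> linarith
  · rw [if_neg (fun H => absurd H.2 (not_le.2 h3)), if_neg (fun H => absurd H.2 (not_le.2 h2)),
      if_neg (fun H => absurd H.2 (not_le.2 h4))]
    have e1 : min V g = V := min_eq_left h3.le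
    have e2 : max U (g - h) = g - h := max_eq_right (by linarith)
    rw [e1, e2, max_eq_left (by linarith)]
    simp

/-- first moment on a block -/
lemma first_moment (S : Finset ℂ) {μ : ℂ → ℝ} (hμ : ∀ s, 0 ≤ μ s) {h U V : ℝ} (hh : 0 ≤ h)
    (hUV : U + h ≤ V) :
    |(∫ t in U..V, Wn S μ h t) - h * ∑ s ∈ S, μ s * (if U < s.im ∧ s.im ≤ V then 1 else 0)| ≤
      h * (Wn S μ h U + Wn S μ h V) := by
  have e1 : ∫ t in U..V, Wn S μ h t = ∑ s ∈ S, μ s * max 0 (min V s.im - max U (s.im - h)) := by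
    unfold Wn
    rw [intervalIntegral.integral_finsetSum fun s _ => ?_]
    · refine Finset.sum_congr rfl fun s _ => ?_
      rw [intervalIntegral.integral_const_mul, omega_eq _ _ _ _ (by linarith)]
    · refine IntervalIntegrable.const_mul ?_ _
      refine bdd_integrable ?_ (M := 1) ?_ _ _
      · refine Measurable.ite ?_ measurable_const measurable_const
        exact (measurableSet_lt measurable_id measurable_const).inter
          (measurableSet_le measurable_const (measurable_id.add_const h))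
      · intro t
        split_ifs <;> simp
  rw [e1, Finset.mul_sum, ← Finset.sum_sub_distrib]
  refine (Finset.abs_sum_le_sum_abs _ _).trans ?_
  unfold Wn
  rw [← Finset.sum_add_distrib, Finset.mul_sum]
  refine Finset.sum_le_sum fun s _ => ?_
  rw [show μ s * max 0 (min V s.im - max U (s.im - h)) -
    h * (μ s * (if U < s.im ∧ s.im ≤ V then 1 else 0)) = μ s *
    (max 0 (min V s.im - max U (s.im - h)) - h * (if U < s.im ∧ s.im ≤ V then 1 else 0)) by ring,
    abs_mul, abs_of_nonneg (hμ s)]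
  refine (mul_le_mul_of_nonneg_left (omega_bound s.im h U V hh hUV) (hμ s)).trans (le_of_eq ?_)
  ring

/-- dyadic decomposition of an integral -/
lemma dyadic_int {f : ℝ → ℝ} (hf : ∀ A B, IntervalIntegrable f volume A B) (T : ℝ) (J : ℕ) :
    ∫ t in (T / 2 ^ J)..T, f t = ∑ j ∈ Finset.range J,
      ∫ t in (T / 2 ^ (j + 1))..(2 * (T / 2 ^ (j + 1))), f t := by
  induction J with
  | zero => simp
  | succ n ih =>
    rw [Finset.sum_range_succ, ← ih]
    have e : 2 * (T / 2 ^ (n + 1)) = T / 2 ^ n := by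
      rw [pow_succ]; field_simp
    rw [e]
    have := intervalIntegral.integral_add_adjacent_intervals
      (hf (T / 2 ^ (n + 1)) (T / 2 ^ n)) (hf (T / 2 ^ n) T)
    linarith

lemma dyadic_sum (T : ℝ) (J : ℕ) :
    ∑ j ∈ Finset.range J, T / 2 ^ (j + 1) = T - T / 2 ^ J := by
  induction J with
  | zero => simp
  | succ n ih =>
    rw [Finset.sum_range_succ, ih, pow_succ]
    field_simp
    ring

lemma dyadic_sum2 {T : ℝ} (hT : 0 ≤ T) (J : ℕ) :
    ∑ j ∈ Finset.range J, T / 2 ^ (j + 1) * ((j : ℝ) + 1) ≤ 2 * T := by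
  have h : ∑ j ∈ Finset.range J, T / 2 ^ (j + 1) * ((j : ℝ) + 1) =
      2 * T - T / 2 ^ J * (J + 2) := by
    induction J with
    | zero => simp; ring
    | succ n ih =>
      rw [Finset.sum_range_succ, ih, pow_succ]
      push_cast
      field_simp
      ring
  rw [h]
  have : 0 ≤ T / 2 ^ J * (J + 2) := by positivity
  linarith

end Pool.Agent.Y750.PC
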