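import Mathlib

set_option autoImplicit false

/-! # The second moment of the counts in windows and the number of pairs -/

open MeasureTheory Filter Topology Set

namespace Pool.Agent.Y750.PC

/-- the window count -/
noncomputable def Wn (S : Finset ℂ) (μ : ℂ → ℝ) (h t : ℝ) : ℝ :=
  ∑ s ∈ S, μ s * (if t < s.im ∧ s.im ≤ t + h then 1 else 0)

/-- the number of pairs of equal ordinates -/
noncomputable def Eqn (S : Finset ℂ) (μ : ℂ → ℝ) : ℝ :=
  ∑ s ∈ S, ∑ w ∈ S, μ s * μ w * (if s.im = w.im then 1 else 0)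

/-- the number of pairs at distance at most `d` -/
noncomputable def Prn (S : Finset ℂ) (μ : ℂ → ℝ) (d : ℝ) : ℝ :=
  ∑ s ∈ S, ∑ w ∈ S, μ s * μ w * (if 0 < s.im - w.im ∧ s.im - w.im ≤ d then 1 else 0)

lemma ind_eq (g g' h : ℝ) :
    (fun t : ℝ => (if t < g ∧ g ≤ t + h then (1 : ℝ) else 0) *
      (if t < g' ∧ g' ≤ t + h then (1 : ℝ) else 0)) =
      (Ico (max g g' - h) (min g g')).indicator (fun _ => (1 : ℝ)) := by
  ext t
  by_cases h1 : t < g ∧ g ≤ t + h
  · by_cases h2 : t < g' ∧ g' ≤ t + h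
    · rw [if_pos h1, if_pos h2, Set.indicator_of_mem, mul_one]
      exact ⟨by have : max g g' ≤ t + h := max_le h1.2 h2.2
                linarith, lt_min h1.1 h2.1⟩
    · rw [if_pos h1, if_neg h2, Set.indicator_of_notMem, mul_zero]
      intro h3
      apply h2
      have h4 := le_max_right g g'
      exact ⟨lt_of_lt_of_le h3.2 (min_le_right _ _), by linarith [h3.1]⟩
  · rw [if_neg h1, Set.indicator_of_notMem, zero_mul]
    intro h3
    apply h1
    have h4 := le_max_left g g'
    exact ⟨lt_of_lt_of_le h3.2 (min_le_left _ _), by linarith [h3.1]⟩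

lemma ind_int (g g' h : ℝ) :
    ∫ t : ℝ, (if t < g ∧ g ≤ t + h then (1 : ℝ) else 0) *
      (if t < g' ∧ g' ≤ t + h then (1 : ℝ) else 0) = max 0 (h - |g - g'|) := by
  rw [ind_eq, integral_indicator measurableSet_Ico, setIntegral_const, smul_eq_mul, mul_one,
    measureReal_def, Real.volume_Ico, ENNReal.toReal_ofReal']
  rw [max_comm]
  congr 1
  rcases le_total g g' with h1 | h1
  · rw [max_eq_right h1, min_eq_left h1, abs_of_nonpos (by linarith)]
    ring
  · rw [max_eq_left h1, min_eq_right h1, abs_of_nonneg (by linarith)]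
    ring

lemma ind_integrable (g g' h : ℝ) :
    Integrable (fun t : ℝ => (if t < g ∧ g ≤ t + h then (1 : ℝ) else 0) *
      (if t < g' ∧ g' ≤ t + h then (1 : ℝ) else 0)) := by
  rw [ind_eq, integrable_indicator_iff measurableSet_Ico]
  exact integrableOn_const (by simp)

lemma Wn_sq (S : Finset ℂ) (μ : ℂ → ℝ) (h : ℝ) :
    (fun t => Wn S μ h t ^ 2) = fun t => ∑ s ∈ S, ∑ w ∈ S, μ s * μ w *
      ((if t < s.im ∧ s.im ≤ t + h then (1 : ℝ) else 0) *
        (if t < w.im ∧ w.im ≤ t + h then (1 : ℝ) else 0)) := by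
  ext t
  unfold Wn
  rw [pow_two, Finset.sum_mul_sum]
  refine Finset.sum_congr rfl fun s _ => Finset.sum_congr rfl fun w _ => ?_
  ring

lemma Wn_sq_integrable (S : Finset ℂ) (μ : ℂ → ℝ) (h : ℝ) :
    Integrable (fun t => Wn S μ h t ^ 2) := by
  rw [Wn_sq]
  exact integrable_finsetSum _ fun s _ => integrable_finsetSum _ fun w _ =>
    (ind_integrable _ _ _).const_mul _

lemma Wn_sq_int (S : Finset ℂ) (μ : ℂ → ℝ) (h : ℝ) :
    ∫ t : ℝ, Wn S μ h t ^ 2 = ∑ s ∈ S, ∑ w ∈ S, μ s * μ w * max 0 (h - |s.im - w.im|) := by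
  rw [Wn_sq, integral_finsetSum _ fun s _ => integrable_finsetSum _ fun w _ =>
    (ind_integrable _ _ _).const_mul _]
  refine Finset.sum_congr rfl fun s _ => ?_
  rw [integral_finsetSum _ fun w _ => (ind_integrable _ _ _).const_mul _]
  refine Finset.sum_congr rfl fun w _ => ?_
  rw [integral_const_mul, ind_int]

lemma step_integrable (c d x y : ℝ) :
    IntervalIntegrable (fun u => if 0 < d ∧ d ≤ c * u then (1 : ℝ) else 0) volume x y := by
  refine (intervalIntegrable_const (c := (1 : ℝ))).mono_fun ?_ ?_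
  · refine Measurable.aestronglyMeasurable ?_
    refine Measurable.ite ?_ measurable_const measurable_const
    exact (MeasurableSet.const _).inter
      (measurableSet_le measurable_const (measurable_const.mul measurable_id))
  · refine Filter.Eventually.of_forall fun u => ?_
    show ‖(if 0 < d ∧ d ≤ c * u then (1 : ℝ) else 0)‖ ≤ ‖(1 : ℝ)‖
    split_ifs <;> simp

lemma step_eq {c : ℝ} (hc : 0 < c) (d a : ℝ) (ha : 0 ≤ a) :
    ∫ u in (0 : ℝ)..a, (if 0 < d ∧ d ≤ c * u then (1 : ℝ) else 0) =
      if 0 < d then max 0 (a - d / c) else 0 := by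
  by_cases hd : 0 < d
  · rw [if_pos hd]
    rcases le_total a (d / c) with h | h
    · rw [max_eq_left (by linarith)]
      rw [intervalIntegral.integral_of_le ha]
      have : ∀ᵐ u ∂(volume.restrict (Ioc 0 a)), (if 0 < d ∧ d ≤ c * u then (1 : ℝ) else 0) = 0 := by
        have h1 : ∀ᵐ u ∂(volume : Measure ℝ), u ≠ a := by
          simp [ae_iff]
        rw [ae_restrict_iff' measurableSet_Ioc]
        filter_upwards [h1] with u hu hu2
        rw [if_neg]
        rintro ⟨_, h3⟩
        have h4 : u < a := lt_of_le_of_ne hu2.2 hu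
        rw [le_div_iff₀ hc] at h
        nlinarith
      rw [integral_congr_ae this]
      simp
    · rw [max_eq_right (by linarith)]
      have hdc : 0 < d / c := div_pos hd hc
      have i1 := step_integrable c d 0 (d / c)
      have i2 := step_integrable c d (d / c) a
      rw [← intervalIntegral.integral_add_adjacent_intervals i1 i2]
      have e1 : ∫ u in (0 : ℝ)..(d / c), (if 0 < d ∧ d ≤ c * u then (1 : ℝ) else 0) = 0 := by
        rw [intervalIntegral.integral_of_le hdc.le]
        have : ∀ᵐ u ∂(volume.restrict (Ioc 0 (d / c))),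
            (if 0 < d ∧ d ≤ c * u then (1 : ℝ) else 0) = 0 := by
          have h1 : ∀ᵐ u ∂(volume : Measure ℝ), u ≠ d / c := by
            simp [ae_iff]
          rw [ae_restrict_iff' measurableSet_Ioc]
          filter_upwards [h1] with u hu hu2
          rw [if_neg]
          rintro ⟨_, h3⟩
          have h4 : u < d / c := lt_of_le_of_ne hu2.2 hu
          rw [lt_div_iff₀ hc] at h4
          nlinarith
        rw [integral_congr_ae this]
        simp
      have e2 : ∫ u in (d / c)..a, (if 0 < d ∧ d ≤ c * u then (1 : ℝ) else 0) =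
          ∫ _u in (d / c)..a, (1 : ℝ) := by
        refine intervalIntegral.integral_congr fun u hu => ?_
        rw [uIcc_of_le h] at hu
        show (if 0 < d ∧ d ≤ c * u then (1 : ℝ) else 0) = 1
        rw [if_pos]
        refine ⟨hd, ?_⟩
        have := hu.1
        rw [div_le_iff₀ hc] at this
        linarith
      rw [e1, e2, intervalIntegral.integral_const, smul_eq_mul]
      ring
  · rw [if_neg hd]
    have : ∀ u : ℝ, (if 0 < d ∧ d ≤ c * u then (1 : ℝ) else 0) = 0 := fun u =>
      if_neg fun h => hd h.1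
    simp_rw [this]
    simp

lemma Prn_integrable (S : Finset ℂ) (μ : ℂ → ℝ) (c x y : ℝ) :
    IntervalIntegrable (fun u => Prn S μ (c * u)) volume x y := by
  have e : (fun u => Prn S μ (c * u)) = ∑ s ∈ S, ∑ w ∈ S, fun u =>
      μ s * μ w * (if 0 < s.im - w.im ∧ s.im - w.im ≤ c * u then (1 : ℝ) else 0) := by
    ext u
    unfold Prn
    simp only [Finset.sum_apply]
  rw [e]
  exact IntervalIntegrable.sum _ fun s _ => IntervalIntegrable.sum _ fun w _ =>
    (step_integrable _ _ _ _).const_mul _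

lemma Prn_int (S : Finset ℂ) (μ : ℂ → ℝ) {c : ℝ} (hc : 0 < c) {a : ℝ} (ha : 0 ≤ a) :
    ∫ u in (0 : ℝ)..a, Prn S μ (c * u) = ∑ s ∈ S, ∑ w ∈ S, μ s * μ w *
      (if 0 < s.im - w.im then max 0 (a - (s.im - w.im) / c) else 0) := by
  unfold Prn
  rw [intervalIntegral.integral_finsetSum fun s _ => ?_]
  · refine Finset.sum_congr rfl fun s _ => ?_
    rw [intervalIntegral.integral_finsetSum fun w _ => (step_integrable _ _ _ _).const_mul _]
    refine Finset.sum_congr rfl fun w _ => ?_
    rw [intervalIntegral.integral_const_mul, step_eq hc _ _ ha]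
  · have e : (fun u => ∑ w ∈ S, μ s * μ w * (if 0 < s.im - w.im ∧ s.im - w.im ≤ c * u then
        (1 : ℝ) else 0)) = ∑ w ∈ S, fun u =>
      μ s * μ w * (if 0 < s.im - w.im ∧ s.im - w.im ≤ c * u then (1 : ℝ) else 0) := by
      ext u
      simp only [Finset.sum_apply]
    rw [e]
    exact IntervalIntegrable.sum _ fun w _ => (step_integrable _ _ _ _).const_mul _

/-- the second moment and the pairs -/
theorem moment_pairs (S : Finset ℂ) (μ : ℂ → ℝ) {c : ℝ} (hc : 0 < c) {a : ℝ} (ha : 0 ≤ a) :
    ∫ t : ℝ, Wn S μ (c * a) t ^ 2 =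
      c * a * Eqn S μ + 2 * c * ∫ u in (0 : ℝ)..a, Prn S μ (c * u) := by
  rw [Wn_sq_int, Prn_int S μ hc ha]
  unfold Eqn
  have e0 : ∑ s ∈ S, ∑ w ∈ S, μ s * μ w *
      (if 0 < s.im - w.im then max 0 (a - (s.im - w.im) / c) else 0) =
      ∑ s ∈ S, ∑ w ∈ S, μ s * μ w *
      (if 0 < w.im - s.im then max 0 (a - (w.im - s.im) / c) else 0) := by
    rw [Finset.sum_comm]
    refine Finset.sum_congr rfl fun s _ => Finset.sum_congr rfl fun w _ => ?_
    ring
  have e1 : 2 * c * ∑ s ∈ S, ∑ w ∈ S, μ s * μ w *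
      (if 0 < s.im - w.im then max 0 (a - (s.im - w.im) / c) else 0) =
      c * (∑ s ∈ S, ∑ w ∈ S, μ s * μ w *
      (if 0 < s.im - w.im then max 0 (a - (s.im - w.im) / c) else 0)) +
      c * ∑ s ∈ S, ∑ w ∈ S, μ s * μ w *
      (if 0 < w.im - s.im then max 0 (a - (w.im - s.im) / c) else 0) := by
    rw [← e0]; ring
  rw [e1, Finset.mul_sum, Finset.mul_sum, Finset.mul_sum, ← Finset.sum_add_distrib,
    ← Finset.sum_add_distrib]
  refine Finset.sum_congr rfl fun s _ => ?_
  rw [Finset.mul_sum, Finset.mul_sum, Finset.mul_sum, ← Finset.sum_add_distrib,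
    ← Finset.sum_add_distrib]
  refine Finset.sum_congr rfl fun w _ => ?_
  have hm : ∀ d : ℝ, c * max 0 (a - d / c) = max 0 (c * a - d) := by
    intro d
    rw [mul_max_of_nonneg _ _ hc.le, mul_zero, mul_sub, mul_div_cancel₀ _ hc.ne']
  rcases lt_trichotomy s.im w.im with h | h | h
  · rw [if_neg h.ne, if_neg (by linarith), if_pos (by linarith), abs_of_neg (by linarith)]
    have := hm (w.im - s.im)
    rw [show -(s.im - w.im) = w.im - s.im by ring, ← this]
    ring
  · rw [if_pos h, if_neg (by linarith), if_neg (by linarith), h, sub_self, abs_zero, sub_zero,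
      max_eq_right (by positivity)]
    ring
  · rw [if_neg h.ne', if_pos (by linarith), if_neg (by linarith), abs_of_pos (by linarith)]
    have := hm (s.im - w.im)
    rw [← this]
    ring

end Pool.Agent.Y750.PC
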