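import Pool.Agent.Y750.PC.Pairs

set_option autoImplicit false

/-! # The counting functions of the statement -/

open MeasureTheory Filter Topology Set

namespace Pool.Agent.Y750.PC

open Pool.Agent.TH801.LU (ZZ mem_ZZ ZZ_mono mu mu_nonneg mu_one)
open H370 (mult good_zeta)

/-- multiplicity of `s` as a zero of the Riemann zeta function -/
noncomputable def zmult (s : ℂ) : ℕ := analyticOrderNatAt riemannZeta s

/-- the nontrivial zeros -/
def Z0 : Set ℂ := {s : ℂ | riemannZeta s = 0 ∧ 0 < s.re ∧ s.re < 1}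

/-- the pairs of `N*(T, a)` -/
def SP (T a : ℝ) : Set (ℂ × ℂ) := {p : ℂ × ℂ | p.1 ∈ Z0 ∧ p.2 ∈ Z0 ∧ 0 < p.1.im ∧ p.1.im ≤ T ∧
    0 < p.1.im - p.2.im ∧ p.1.im - p.2.im ≤ 2 * Real.pi * a / Real.log T}

/-- the pairs of equal ordinates -/
def EP (T : ℝ) : Set (ℂ × ℂ) := {p : ℂ × ℂ | p.1 ∈ Z0 ∧ p.2 ∈ Z0 ∧ 0 < p.1.im ∧ p.1.im ≤ T ∧
    p.1.im = p.2.im}

/-- the bad zeros -/
def BP (T : ℝ) : Set ℂ := {s : ℂ | s ∈ Z0 ∧ 0 < s.im ∧ s.im ≤ T ∧
    (s.re ≠ 1 / 2 ∨ deriv riemannZeta s = 0)}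

noncomputable def nstar (T a : ℝ) : ℕ := ∑ᶠ p ∈ SP T a, zmult p.1 * zmult p.2
noncomputable def neq (T : ℝ) : ℕ := ∑ᶠ p ∈ EP T, zmult p.1 * zmult p.2
noncomputable def nbad (T : ℝ) : ℕ := ∑ᶠ s ∈ BP T, zmult s

lemma mem_Z0 {T : ℝ} {s : ℂ} : s ∈ ZZ T ↔ s ∈ Z0 ∧ 0 < s.im ∧ s.im ≤ T := by
  rw [mem_ZZ]
  unfold Z0
  simp only [Set.mem_ofPred_eq]
  tauto

/-- zeros in a compact piece of the strip -/
lemma box_finite (A B : ℝ) : {s : ℂ | s ∈ Z0 ∧ A ≤ s.im ∧ s.im ≤ B}.Finite := by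
  have hcomp : IsCompact (Icc (0 : ℝ) 1 ×ℂ Icc A B) := isCompact_Icc.reProdIm isCompact_Icc
  refine (hcomp.inter_riemannZetaZeros_finite).subset ?_
  rintro s ⟨⟨h0, h1, h2⟩, h3, h4⟩
  exact ⟨⟨⟨h1.le, h2.le⟩, ⟨h3, h4⟩⟩, h0⟩

lemma SP_finite (T a : ℝ) : (SP T a).Finite := by
  refine ((box_finite 0 T).prod (box_finite (-(2 * Real.pi * a / Real.log T)) T)).subset ?_
  rintro ⟨s, s'⟩ ⟨h1, h2, h3, h4, h5, h6⟩
  simp only at h3 h4 h5 h6
  exact ⟨⟨h1, h3.le, h4⟩, ⟨h2, by linarith, by linarith⟩⟩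

lemma nstar_mono {T a b : ℝ} (hT : 1 ≤ T) (hab : a ≤ b) : nstar T a ≤ nstar T b := by
  unfold nstar
  have hsub : SP T a ⊆ SP T b := by
    rintro p ⟨h1, h2, h3, h4, h5, h6⟩
    refine ⟨h1, h2, h3, h4, h5, h6.trans ?_⟩
    have hL : 0 ≤ Real.log T := Real.log_nonneg hT
    have hpi := Real.pi_pos
    gcongr
  rw [finsum_mem_eq_finite_toFinset_sum _ (SP_finite T a),
    finsum_mem_eq_finite_toFinset_sum _ (SP_finite T b)]
  refine Finset.sum_le_sum_of_subset fun p hp => ?_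
  rw [Set.Finite.mem_toFinset] at hp ⊢
  exact hsub hp

/-- the pairs of the statement and the pairs of the finite set -/
theorem nstar_eq : ∃ K : ℝ, 0 ≤ K ∧ ∀ T a : ℝ, 2 * Real.pi * a / Real.log T ≤ 7 →
    Prn (ZZ T) mu (2 * Real.pi / Real.log T * a) ≤ (nstar T a : ℝ) ∧
    (nstar T a : ℝ) ≤ Prn (ZZ T) mu (2 * Real.pi / Real.log T * a) + K := by
  classical
  set F7 := (box_finite (-7) 7).toFinset with hF7
  refine ⟨∑ p ∈ F7 ×ˢ F7, (zmult p.1 * zmult p.2 : ℝ), by positivity, fun T a hh => ?_⟩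
  have e0 : 2 * Real.pi / Real.log T * a = 2 * Real.pi * a / Real.log T := by ring
  rw [e0]
  obtain ⟨h, hh'⟩ : ∃ h, h = 2 * Real.pi * a / Real.log T := ⟨_, rfl⟩
  rw [← hh'] at hh ⊢
  have e1 : (nstar T a : ℝ) = ∑ p ∈ (SP_finite T a).toFinset, (zmult p.1 * zmult p.2 : ℝ) := by
    unfold nstar
    rw [finsum_mem_eq_finite_toFinset_sum _ (SP_finite T a)]
    push_cast
    rfl
  have e2 : Prn (ZZ T) mu h = ∑ p ∈ (ZZ T ×ˢ ZZ T).filter
      (fun p => 0 < p.1.im - p.2.im ∧ p.1.im - p.2.im ≤ h), (zmult p.1 * zmult p.2 : ℝ) := by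
    unfold Prn
    rw [Finset.sum_filter, Finset.sum_product]
    refine Finset.sum_congr rfl fun s _ => Finset.sum_congr rfl fun w _ => ?_
    show mu s * mu w * _ = _
    split_ifs
    · rw [mul_one]; rfl
    · rw [mul_zero]
  rw [e1, e2]
  constructor
  · refine Finset.sum_le_sum_of_subset_of_nonneg ?_ fun p _ _ => by positivity
    intro p hp
    rw [Finset.mem_filter, Finset.mem_product, mem_Z0, mem_Z0] at hp
    rw [Set.Finite.mem_toFinset]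
    obtain ⟨⟨⟨h1, h2, h3⟩, ⟨h4, h5, h6⟩⟩, h7, h8⟩ := hp
    exact ⟨h1, h4, h2, h3, h7, by rw [← hh']; exact h8⟩
  · rw [← Finset.sum_filter_add_sum_filter_not (SP_finite T a).toFinset (fun p => 0 < p.2.im)]
    apply add_le_add
    · refine Finset.sum_le_sum_of_subset_of_nonneg ?_ fun p _ _ => by positivity
      intro p hp
      rw [Finset.mem_filter, Set.Finite.mem_toFinset] at hp
      rw [Finset.mem_filter, Finset.mem_product, mem_Z0, mem_Z0]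
      obtain ⟨⟨h1, h2, h3, h4, h5, h6⟩, h7⟩ := hp
      rw [← hh'] at h6
      exact ⟨⟨⟨h1, h3, h4⟩, ⟨h2, h7, by linarith⟩⟩, h5, h6⟩
    · refine Finset.sum_le_sum_of_subset_of_nonneg ?_ fun p _ _ => by positivity
      intro p hp
      rw [Finset.mem_filter, Set.Finite.mem_toFinset, not_lt] at hp
      obtain ⟨⟨h1, h2, h3, h4, h5, h6⟩, h7⟩ := hp
      rw [← hh'] at h6
      rw [Finset.mem_product, hF7, Set.Finite.mem_toFinset, Set.Finite.mem_toFinset]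
      exact ⟨⟨h1, by linarith, by linarith⟩, ⟨h2, by linarith, by linarith⟩⟩

theorem neq_eq (T : ℝ) : (neq T : ℝ) = Eqn (ZZ T) mu := by
  classical
  have e1 : EP T = ↑((ZZ T ×ˢ ZZ T).filter (fun p => p.1.im = p.2.im)) := by
    ext p
    simp only [Finset.coe_filter, Finset.mem_product, Set.mem_ofPred_eq, mem_Z0]
    constructor
    · rintro ⟨h1, h2, h3, h4, h5⟩
      exact ⟨⟨⟨h1, h3, h4⟩, ⟨h2, h5 ▸ h3, h5 ▸ h4⟩⟩, h5⟩
    · rintro ⟨⟨⟨h1, h3, h4⟩, ⟨h2, _, _⟩⟩, h5⟩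
      exact ⟨h1, h2, h3, h4, h5⟩
  unfold neq
  rw [e1, finsum_mem_coe_finset, Finset.sum_filter, Finset.sum_product]
  push_cast
  unfold Eqn
  refine Finset.sum_congr rfl fun s _ => Finset.sum_congr rfl fun w _ => ?_
  show _ = mu s * mu w * _
  split_ifs
  · rw [mul_one]; rfl
  · rw [mul_zero]

theorem nbad_le (T : ℝ) : (nbad T : ℝ) ≤ (∑ᶠ s ∈ {s : ℂ | s ∈ ZZ T ∧ 1 < s.im ∧ BadZ s}, mu s) +
    ∑ s ∈ ZZ 1, mu s := by
  classical
  have e1 : BP T = ↑((ZZ T).filter (fun s => BadZ s)) := by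
    ext s
    simp only [Finset.coe_filter, Set.mem_ofPred_eq, mem_Z0]
    constructor
    · rintro ⟨h1, h2, h3, h4⟩
      exact ⟨⟨h1, h2, h3⟩, h4⟩
    · rintro ⟨⟨h1, h2, h3⟩, h4⟩
      exact ⟨h1, h2, h3, h4⟩
  have e2 : {s : ℂ | s ∈ ZZ T ∧ 1 < s.im ∧ BadZ s} =
      ↑((ZZ T).filter (fun s => 1 < s.im ∧ BadZ s)) := by
    ext s
    simp
  unfold nbad
  rw [e1, e2, finsum_mem_coe_finset, finsum_mem_coe_finset]
  push_cast
  show ∑ s ∈ (ZZ T).filter (fun s => BadZ s), mu s ≤ _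
  rw [← Finset.sum_filter_add_sum_filter_not ((ZZ T).filter (fun s => BadZ s)) (fun s => 1 < s.im)]
  apply add_le_add
  · refine le_of_eq (Finset.sum_congr ?_ fun _ _ => rfl)
    ext s
    simp only [Finset.mem_filter]
    tauto
  · refine Finset.sum_le_sum_of_subset_of_nonneg ?_ fun s _ _ => mu_nonneg s
    intro s hs
    rw [Finset.mem_filter, Finset.mem_filter, mem_Z0, not_lt] at hs
    rw [mem_Z0]
    exact ⟨hs.1.1.1, hs.1.1.2.1, hs.2⟩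

end Pool.Agent.Y750.PC
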