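import Pool.Agent.Y750.PC.Sec
import Pool.Agent.TH850.UV.NVh
import Pool.Agent.TH801.LU.Zs

set_option autoImplicit false

/-! # The second moment of the counts of zeta zeros in windows, from zero to `T` -/

open MeasureTheory Filter Topology Set

namespace Pool.Agent.Y750.PC

open Pool.Agent.TH801.LU (ZZ mem_ZZ ZZ_mono mu mu_nonneg near split)
open Pool.Agent.TH850.UV (cnt cnt_eq NS nv2)
open H370 (Zf mem_Zf good_zeta NN NN_eq)

lemma win_le {K X : ℝ} {t : ℝ} (ht : 2 ≤ t)
    (h : ∑ s ∈ (ZZ ((t + 1) + 1)).filter (fun s => (t + 1) - 1 < s.im), mu s ≤ K) :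
    ∑ s ∈ ZZ X, mu s * (if t < s.im ∧ s.im ≤ t + 2 then 1 else 0) ≤ K := by
  refine le_trans ?_ h
  have e : ∀ s, mu s * (if t < s.im ∧ s.im ≤ t + 2 then (1 : ℝ) else 0) =
      if t < s.im ∧ s.im ≤ t + 2 then mu s else 0 := by
    intro s; split_ifs <;> simp
  simp_rw [e]
  rw [← Finset.sum_filter]
  refine Finset.sum_le_sum_of_subset_of_nonneg ?_ fun s _ _ => mu_nonneg s
  intro s hs
  rw [Finset.mem_filter, mem_ZZ] at hs ⊢
  obtain ⟨⟨h1, h2, h3, h4, h5⟩, h6, h7⟩ := hs
  exact ⟨⟨h1, h2, h3, by linarith, h5⟩, by linarith⟩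

/-- the crude bound -/
lemma Wn_bound : ∃ K : ℝ, 0 < K ∧ ∀ T : ℝ, 16 ≤ T → ∀ X h t : ℝ, X ≤ 2 * T → 0 ≤ h → h ≤ 8 →
    Wn (ZZ X) mu h t ≤ K * Real.log T := by
  obtain ⟨C, hC, hn⟩ := near
  set M := ∑ s ∈ ZZ 12, mu s with hM
  have hM0 : 0 ≤ M := Finset.sum_nonneg fun s _ => mu_nonneg s
  refine ⟨8 * C + M, by linarith, fun T hT X h t hX hh hh8 => ?_⟩
  have hL1 : 1 ≤ Real.log T := by
    rw [Real.le_log_iff_exp_le (by linarith)]
    linarith [Real.exp_one_lt_d9]
  rcases le_or_gt t 4 with h4 | h4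
  · -- low windows
    have h1 : Wn (ZZ X) mu h t ≤ M := by
      unfold Wn
      have e : ∀ s, mu s * (if t < s.im ∧ s.im ≤ t + h then (1 : ℝ) else 0) =
          if t < s.im ∧ s.im ≤ t + h then mu s else 0 := by
        intro s; split_ifs <;> simp
      simp_rw [e]
      rw [← Finset.sum_filter]
      refine Finset.sum_le_sum_of_subset_of_nonneg ?_ fun s _ _ => mu_nonneg s
      intro s hs
      rw [Finset.mem_filter, mem_ZZ] at hs
      rw [mem_ZZ]
      obtain ⟨⟨h1, h2, h3, h4, h5⟩, h6, h7⟩ := hs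
      exact ⟨h1, h2, h3, by linarith, h5⟩
    nlinarith
  rcases le_or_gt (2 * T) t with h5 | h5
  · have h1 : Wn (ZZ X) mu h t = 0 := by
      unfold Wn
      refine Finset.sum_eq_zero fun s hs => ?_
      rw [mem_ZZ] at hs
      rw [if_neg, mul_zero]
      rintro ⟨h6, _⟩
      linarith [hs.2.2.2.1]
    rw [h1]
    have : 0 ≤ 8 * C + M := by linarith
    positivity
  · have h1 : Wn (ZZ X) mu h t ≤ ∑ j ∈ Finset.range 4,
        ∑ s ∈ ZZ X, mu s * (if t + 2 * (j : ℝ) < s.im ∧ s.im ≤ t + 2 * (j : ℝ) + 2 then 1 else 0) := by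
      unfold Wn
      rw [Finset.sum_comm]
      refine Finset.sum_le_sum fun s _ => ?_
      rw [← Finset.mul_sum]
      apply mul_le_mul_of_nonneg_left _ (mu_nonneg s)
      by_cases hs : t < s.im ∧ s.im ≤ t + h
      · rw [if_pos hs]
        obtain ⟨hs1, hs2⟩ := hs
        have hpos : ∀ j ∈ Finset.range 4, (0 : ℝ) ≤
            (if t + 2 * (j : ℝ) < s.im ∧ s.im ≤ t + 2 * (j : ℝ) + 2 then (1 : ℝ) else 0) := by
          intro j _
          split_ifs <;> norm_num
        rcases le_or_gt s.im (t + 2) with h5 | h5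
        · refine le_trans (le_of_eq ?_) (Finset.single_le_sum hpos (Finset.mem_range.2 (by norm_num : 0 < 4)))
          rw [if_pos ⟨by push_cast; linarith, by push_cast; linarith⟩]
        rcases le_or_gt s.im (t + 4) with h6 | h6
        · refine le_trans (le_of_eq ?_) (Finset.single_le_sum hpos (Finset.mem_range.2 (by norm_num : 1 < 4)))
          rw [if_pos ⟨by push_cast; linarith, by push_cast; linarith⟩]
        rcases le_or_gt s.im (t + 6) with h7 | h7
        · refine le_trans (le_of_eq ?_) (Finset.single_le_sum hpos (Finset.mem_range.2 (by norm_num : 2 < 4)))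
          rw [if_pos ⟨by push_cast; linarith, by push_cast; linarith⟩]
        · refine le_trans (le_of_eq ?_) (Finset.single_le_sum hpos (Finset.mem_range.2 (by norm_num : 3 < 4)))
          rw [if_pos ⟨by push_cast; linarith, by push_cast; linarith⟩]
      · rw [if_neg hs]
        refine Finset.sum_nonneg fun j _ => ?_
        split_ifs <;> norm_num
    refine h1.trans ?_
    have h2 : ∀ j ∈ Finset.range 4, ∑ s ∈ ZZ X, mu s *
        (if t + 2 * (j : ℝ) < s.im ∧ s.im ≤ t + 2 * (j : ℝ) + 2 then (1 : ℝ) else 0) ≤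
        2 * C * Real.log T := by
      intro j hj
      rw [Finset.mem_range] at hj
      have hj0 : (0 : ℝ) ≤ j := Nat.cast_nonneg _
      have hj4 : (j : ℝ) ≤ 3 := by exact_mod_cast (by omega : j ≤ 3)
      have h3 := hn (t + 2 * j + 1) (by linarith)
      refine (win_le (X := X) (by linarith) h3).trans ?_
      have h4 : Real.log (t + 2 * j + 1) ≤ 2 * Real.log T := by
        have : Real.log (t + 2 * j + 1) ≤ Real.log (T ^ 2) := by
          apply Real.log_le_log (by linarith)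
          nlinarith
        rw [Real.log_pow] at this
        exact_mod_cast this
      calc C * Real.log (t + 2 * j + 1) ≤ C * (2 * Real.log T) := by gcongr
        _ = _ := by ring
    refine (Finset.sum_le_sum h2).trans ?_
    rw [Finset.sum_const, Finset.card_range, nsmul_eq_mul]
    push_cast
    have : 0 ≤ M * Real.log T := by positivity
    nlinarith

/-- the window count is the library count -/
lemma Wn_cnt {T t h : ℝ} (ht : 1 ≤ t) (hth : t + h ≤ 2 * T) (hh : 0 ≤ h) :
    Wn (ZZ (2 * T)) mu h t = (cnt t h : ℝ) := by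
  rw [cnt_eq (A := t) (B := 2 * T) ht le_rfl hth]
  unfold Wn NS
  rw [split (a := t) (b := 2 * T) ht (by linarith)]
  have h0 : ∑ s ∈ ZZ t, mu s * (if t < s.im ∧ s.im ≤ t + h then (1 : ℝ) else 0) = 0 := by
    refine Finset.sum_eq_zero fun s hs => ?_
    rw [mem_ZZ] at hs
    rw [if_neg, mul_zero]
    rintro ⟨h6, _⟩
    linarith [hs.2.2.2.1]
  rw [h0, zero_add]
  rfl

lemma nuB_eq {T U V : ℝ} (hU : 1 ≤ U) (hUV : U ≤ V) (hV : V ≤ 2 * T) :
    nuB (ZZ (2 * T)) mu U V = (NN riemannZeta U V : ℝ) := by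
  rw [NN_eq good_zeta hU, Nat.cast_sum]
  unfold nuB
  have e : ∀ s, mu s * (if U < s.im ∧ s.im ≤ V then (1 : ℝ) else 0) =
      if U < s.im ∧ s.im ≤ V then mu s else 0 := by
    intro s; split_ifs <;> simp
  simp_rw [e]
  rw [← Finset.sum_filter]
  refine Finset.sum_congr ?_ fun _ _ => rfl
  ext s
  rw [Finset.mem_filter, mem_ZZ, mem_Zf good_zeta hU]
  constructor
  · rintro ⟨⟨h1, h2, h3, h4, h5⟩, h6, h7⟩
    exact ⟨h1, h2, h6, h7, h5⟩
  · rintro ⟨h1, h2, h3, h4, h5⟩
    exact ⟨⟨h1, h2, by linarith, by linarith, h5⟩, h3, h4⟩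

end Pool.Agent.Y750.PC
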