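import Pool.Agent.Y750.PC.Loc

set_option autoImplicit false

/-! # The second moment -/

open MeasureTheory Filter Topology Set

namespace Pool.Agent.Y750.PC

open Pool.Agent.TH801.LU (ZZ mem_ZZ ZZ_mono mu mu_nonneg near split)
open Pool.Agent.TH850.UV (cnt cnt_eq NS nv2)
open H370 (Zf mem_Zf good_zeta NN NN_eq nn_asymp)

/-- the range of the windows -/
lemma range_le {B L a : ℝ} (hB : 1 ≤ B) (hL : 1 ≤ L) (hLB : B ≤ Real.log L) (ha : 0 < a)
    (h : a * Real.log a ≤ B * L) : a ≤ L := by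
  by_contra hcon
  rw [not_le] at hcon
  have h1 : Real.log L < Real.log a := Real.log_lt_log (by linarith) hcon
  have h2 : B < Real.log a := by linarith
  have h3 : L * B < a * Real.log a := mul_lt_mul'' hcon h2 (by linarith) (by linarith)
  nlinarith

/-- the range is stable under the passage to a lower block -/
lemma range_block {B L a lam : ℝ} (hB : 1 ≤ B) (hL : 0 < L) (ha : 0 < a) (hl0 : 0 < lam)
    (hl1 : lam ≤ 1) (h : a * Real.log a ≤ B * L) :
    (lam * a) * Real.log (lam * a) ≤ B * (lam * L) := by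
  have hla : 0 < lam * a := by positivity
  rcases le_or_gt (lam * a) 1 with h1 | h1
  · have h2 : Real.log (lam * a) ≤ 0 := Real.log_nonpos hla.le h1
    have h3 : (lam * a) * Real.log (lam * a) ≤ 0 := mul_nonpos_of_nonneg_of_nonpos hla.le h2
    have h4 : 0 ≤ B * (lam * L) := by positivity
    linarith
  · have h2 : Real.log (lam * a) ≤ Real.log a :=
      Real.log_le_log hla (mul_le_of_le_one_left ha.le hl1)
    calc (lam * a) * Real.log (lam * a) ≤ (lam * a) * Real.log a := by gcongr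
      _ = lam * (a * Real.log a) := by ring
      _ ≤ lam * (B * L) := by gcongr
      _ = _ := by ring

lemma supp_int {T h : ℝ} (hT : 0 ≤ T) (hh8 : h ≤ 8) :
    ∫ t : ℝ, Wn (ZZ T) mu h t ^ 2 = ∫ t in (-8 : ℝ)..T, Wn (ZZ T) mu h t ^ 2 := by
  refine (intervalIntegral.integral_eq_integral_of_support_subset ?_).symm
  intro t ht
  rw [Function.mem_support] at ht
  by_contra hcon
  apply ht
  have h0 : Wn (ZZ T) mu h t = 0 := by
    unfold Wn
    refine Finset.sum_eq_zero fun s hs => ?_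
    rw [mem_ZZ] at hs
    rw [if_neg, mul_zero]
    rintro ⟨h6, h7⟩
    apply hcon
    refine ⟨by linarith [hs.2.2.1], by linarith [hs.2.2.2.1]⟩
  rw [h0]
  norm_num

lemma Wn_same {T h t : ℝ} (ht : t + h ≤ T) (hT : 0 ≤ T) :
    Wn (ZZ T) mu h t = Wn (ZZ (2 * T)) mu h t := by
  unfold Wn
  refine Finset.sum_subset (ZZ_mono (by linarith)) fun s hs hs' => ?_
  rw [mem_ZZ] at hs hs'
  rw [if_neg, mul_zero]
  rintro ⟨_, h7⟩
  exact hs' ⟨hs.1, hs.2.1, hs.2.2.1, by linarith, hs.2.2.2.2⟩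

lemma abs_int_le {f : ℝ → ℝ} {A B M : ℝ} (hAB : A ≤ B) (h0 : ∀ t, 0 ≤ f t) (hM : ∀ t, f t ≤ M) :
    |∫ t in A..B, f t| ≤ M * (B - A) := by
  have h := intervalIntegral.norm_integral_le_of_norm_le_const (a := A) (b := B) (f := f) (C := M)
    (fun t _ => by rw [Real.norm_of_nonneg (h0 t)]; exact hM t)
  rwa [abs_of_nonneg (by linarith : 0 ≤ B - A), Real.norm_eq_abs] at h

/-- the second moment of the window counts -/
theorem mom (B : ℝ) (hB : 1 ≤ B) : ∃ C T0 : ℝ, 0 < C ∧ 16 ≤ T0 ∧ ∀ T : ℝ, T0 ≤ T →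
    ∃ A : ℝ, |A - T| ≤ C * (T / Real.log T) ∧ ∀ a : ℝ, 0 < a →
      a * Real.log a ≤ B * Real.log T →
      |(∫ t : ℝ, Wn (ZZ T) mu (2 * Real.pi * a / Real.log T) t ^ 2) -
        (T / Real.pi ^ 2 * Real.log (1 + a) + a ^ 2 * A)| ≤ C * T := by
  obtain ⟨C, T1, hC, hT1, hnv⟩ := nv2 B hB
  obtain ⟨C1, T2, hC1, hT2, hnn⟩ := nn_asymp good_zeta
  obtain ⟨K, hK, hWb⟩ := Wn_bound
  have hpi := Real.pi_pos
  have hpi3 := Real.pi_gt_three
  have hpi4 := Real.pi_lt_d2
  set Q : ℝ := 8 * Real.pi * K + 40 * K ^ 2 + 1 with hQ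
  have hQ1 : 1 ≤ Q := by
    have : 0 ≤ 8 * Real.pi * K + 40 * K ^ 2 := by positivity
    linarith
  have ev : ∀ᶠ T : ℝ in atTop, max 16 (max (T1 ^ 2) (T2 ^ 2)) ≤ T ∧ B ≤ Real.log (Real.log T) ∧
      64 * Q * Real.log T ^ 4 ≤ Real.sqrt T := by
    refine (eventually_ge_atTop _).and (((Real.tendsto_log_atTop.comp
      Real.tendsto_log_atTop).eventually_ge_atTop B).and ?_)
    have h1 : (fun x : ℝ => Real.log x ^ 4) =o[atTop] (id : ℝ → ℝ) :=
      Real.isLittleO_pow_log_id_atTop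
    have h2 := h1.comp_tendsto (Real.tendsto_sqrt_atTop)
    have h3 := h2.def (c := 1 / (64 * Q * 16)) (by positivity)
    filter_upwards [h3, eventually_ge_atTop 16] with T hT hT16
    simp only [Function.comp_apply, id_eq, Real.norm_eq_abs] at hT
    rw [abs_of_nonneg (Real.sqrt_nonneg T), Real.log_sqrt (by linarith), abs_of_nonneg (by
      positivity)] at hT
    have : (Real.log T / 2) ^ 4 = Real.log T ^ 4 / 16 := by ring
    rw [this, div_mul_eq_mul_div, one_mul, div_le_div_iff₀ (by norm_num) (by positivity)] at hT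
    nlinarith
  obtain ⟨T0, hT0⟩ := ev.exists_forall_of_atTop
  refine ⟨4 * Real.pi * C1 + C + 10, max T0 16, by positivity, le_max_right _ _, fun T hT => ?_⟩
  obtain ⟨hTm, hLB, hQT⟩ := hT0 T ((le_max_left _ _).trans hT)
  have hT16 : 16 ≤ T := (le_max_left _ _).trans hTm
  have hTT1 : T1 ^ 2 ≤ T := ((le_max_left _ _).trans (le_max_right _ _)).trans hTm
  have hTT2 : T2 ^ 2 ≤ T := ((le_max_right _ _).trans (le_max_right _ _)).trans hTm
  have hTpos : 0 < T := by linarith
  set L := Real.log T with hL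
  have hL2 : 2 ≤ L := by
    rw [hL, Real.le_log_iff_exp_le hTpos]
    have : Real.exp 2 = Real.exp 1 ^ 2 := by rw [← Real.exp_nat_mul]; norm_num
    rw [this]
    have h2 := Real.exp_one_lt_d9
    have h3 := Real.exp_pos 1
    nlinarith
  have hL0 : 0 < L := by linarith
  have hsq : Real.sqrt T ^ 2 = T := Real.sq_sqrt hTpos.le
  have hs4 : 4 ≤ Real.sqrt T := Real.le_sqrt_of_sq_le (by linarith)
  have hs1 : 1 ≤ Real.sqrt T := by linarith
  -- the number of blocks
  obtain ⟨J, hJ1, hJ2⟩ := exists_nat_pow_near hs1 (one_lt_two : (1 : ℝ) < 2)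
  have hXlow : Real.sqrt T ≤ T / 2 ^ J := by
    rw [le_div_iff₀ (by positivity)]
    calc Real.sqrt T * 2 ^ J ≤ Real.sqrt T * Real.sqrt T := by gcongr
      _ = T := by rw [← pow_two]; exact hsq
  have hXup : T / 2 ^ J ≤ 2 * Real.sqrt T := by
    rw [div_le_iff₀ (by positivity)]
    have : (2 : ℝ) ^ (J + 1) = 2 * 2 ^ J := by rw [pow_succ]; ring
    rw [this] at hJ2
    calc T = Real.sqrt T * Real.sqrt T := by rw [← pow_two]; exact hsq.symm
      _ ≤ Real.sqrt T * (2 * 2 ^ J) := by gcongr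
      _ = _ := by ring
  have hl2 : Real.log 2 ≤ 1 := by have := Real.log_two_lt_d9; linarith
  have hl2' : 1 / 2 ≤ Real.log 2 := by have := Real.log_two_gt_d9; linarith
  have hJL : (J : ℝ) ≤ L := by
    have h1 : Real.log (2 ^ J) ≤ Real.log (Real.sqrt T) := Real.log_le_log (by positivity) hJ1
    rw [Real.log_pow, Real.log_sqrt hTpos.le] at h1
    have h2 : (J : ℝ) * (1 / 2) ≤ J * Real.log 2 := by gcongr
    rw [← hL] at h1
    linarith
  set lam : ℕ → ℝ := fun j => Real.log (T / 2 ^ (j + 1)) / L with hlam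
  have hblk : ∀ j < J, Real.sqrt T ≤ T / 2 ^ (j + 1) := by
    intro j hj
    refine hXlow.trans ?_
    apply div_le_div_of_nonneg_left hTpos.le (by positivity)
    exact pow_le_pow_right₀ (by norm_num) (by omega)
  have hblk2 : ∀ j < J, 2 * (T / 2 ^ (j + 1)) ≤ T := by
    intro j hj
    have : 2 * (T / 2 ^ (j + 1)) = T / 2 ^ j := by rw [pow_succ]; field_simp
    rw [this]
    apply div_le_self hTpos.le
    exact one_le_pow₀ (by norm_num)
  have hlamL : ∀ j, lam j * L = Real.log (T / 2 ^ (j + 1)) := by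
    intro j
    simp only [hlam]
    field_simp
  have hlam0 : ∀ j < J, 1 / 2 ≤ lam j := by
    intro j hj
    simp only [hlam]
    rw [le_div_iff₀ hL0]
    have h1 : Real.log (Real.sqrt T) ≤ Real.log (T / 2 ^ (j + 1)) :=
      Real.log_le_log (by linarith) (hblk j hj)
    rw [Real.log_sqrt hTpos.le, ← hL] at h1
    linarith
  have hlamv : ∀ j, lam j = 1 - ((j : ℝ) + 1) * Real.log 2 / L := by
    intro j
    simp only [hlam]
    rw [Real.log_div hTpos.ne' (by positivity), Real.log_pow, ← hL]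
    push_cast
    field_simp
  have hlam1 : ∀ j < J, lam j ≤ 1 := by
    intro j hj
    rw [hlamv]
    have : 0 ≤ ((j : ℝ) + 1) * Real.log 2 / L := by positivity
    linarith
  have hlamk : ∀ j < J, 1 - lam j ≤ ((j : ℝ) + 1) / L := by
    intro j hj
    rw [hlamv]
    have : ((j : ℝ) + 1) * Real.log 2 / L ≤ ((j : ℝ) + 1) / L := by
      gcongr
      exact mul_le_of_le_one_right (by positivity) hl2
    linarith
  have hnu : ∀ j < J, |nuB (ZZ (2 * T)) mu (T / 2 ^ (j + 1)) (2 * (T / 2 ^ (j + 1))) -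
      T / 2 ^ (j + 1) * (lam j * L) / (2 * Real.pi)| ≤ C1 * (T / 2 ^ (j + 1)) := by
    intro j hj
    have h1 := hblk j hj
    have h2 := hblk2 j hj
    have hU1 : 1 ≤ T / 2 ^ (j + 1) := by linarith
    rw [nuB_eq hU1 (by linarith) (by linarith), hlamL]
    refine hnn (T / 2 ^ (j + 1)) ?_ _ _ le_rfl (by linarith) (by linarith) le_rfl
    refine le_trans ?_ h1
    exact Real.le_sqrt_of_sq_le hTT2
  set A : ℝ := ∑ j ∈ Finset.range J, cf L (lam j) (T / 2 ^ (j + 1))
      (nuB (ZZ (2 * T)) mu (T / 2 ^ (j + 1)) (2 * (T / 2 ^ (j + 1)))) with hA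
  have hL4 : 1 ≤ L ^ 3 := one_le_pow₀ (by linarith)
  -- `√T L ≤ T / 16`
  have hsL : 64 * Real.sqrt T * L ^ 4 * Q ≤ T := by
    calc 64 * Real.sqrt T * L ^ 4 * Q = Real.sqrt T * (64 * Q * L ^ 4) := by ring
      _ ≤ Real.sqrt T * Real.sqrt T := by gcongr
      _ = T := by rw [← pow_two]; exact hsq
  have hgen : ∀ x : ℝ, x ≤ 64 * L ^ 4 * Q → Real.sqrt T * x ≤ T := by
    intro x hx
    calc Real.sqrt T * x ≤ Real.sqrt T * (64 * L ^ 4 * Q) := by gcongr
      _ = 64 * Real.sqrt T * L ^ 4 * Q := by ring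
      _ ≤ T := hsL
  have hL41 : 1 ≤ L ^ 4 := one_le_pow₀ (by linarith)
  have hLL4 : L ≤ L ^ 4 := by
    calc L = L * 1 := (mul_one L).symm
      _ ≤ L * L ^ 3 := by gcongr
      _ = L ^ 4 := by ring
  have hL2L4 : L ^ 2 ≤ L ^ 4 := pow_le_pow_right₀ (by linarith) (by norm_num)
  have hL3L4 : L ^ 3 ≤ L ^ 4 := pow_le_pow_right₀ (by linarith) (by norm_num)
  have hQL1 : 1 ≤ Q * L ^ 4 := one_le_mul_of_one_le_of_one_le hQ1 hL41
  have hQL2 : L ^ 4 ≤ L ^ 4 * Q := le_mul_of_one_le_right (by linarith) hQ1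
  have h2LQ : 2 * L ≤ 64 * L ^ 4 * Q := by
    have e : 64 * L ^ 4 * Q = 64 * (L ^ 4 * Q) := by ring
    rw [e]
    linarith
  have hQLQ : Q * L ^ 4 ≤ 64 * L ^ 4 * Q := by
    have e : 64 * L ^ 4 * Q = 64 * (Q * L ^ 4) := by ring
    rw [e]
    linarith
  have hs64 : 64 ≤ Real.sqrt T := by
    have e : 64 * Q * L ^ 4 = 64 * (Q * L ^ 4) := by ring
    rw [e] at hQT
    linarith
  have hs2T : 2 * Real.sqrt T ≤ T / 2 := by
    have : 64 * Real.sqrt T ≤ Real.sqrt T * Real.sqrt T :=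
      mul_le_mul_of_nonneg_right hs64 (Real.sqrt_nonneg T)
    rw [← pow_two, hsq] at this
    linarith
  have hpisq : 1 ≤ Real.pi ^ 2 := one_le_pow₀ (by linarith)
  have hK2 : 0 ≤ K ^ 2 := sq_nonneg K
  have hXL : T / 2 ^ J ≤ T / L := by
    rw [le_div_iff₀ hL0]
    calc T / 2 ^ J * L ≤ 2 * Real.sqrt T * L := by gcongr
      _ = Real.sqrt T * (2 * L) := by ring
      _ ≤ T := hgen _ h2LQ
  refine ⟨A, ?_, fun a ha haL => ?_⟩
  · -- the coefficient
    have h1 := (blocks (S := ZZ (2 * T)) mu_nonneg (T := T) (L := L) (a := 1) (C := 0) (K := 0)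
      (C1 := C1) hTpos hL0 one_pos hC1.le 0 lam)
    have h2 : |A - (T - T / 2 ^ J)| ≤ (4 * Real.pi * C1 + 4) * T / L := by
      rw [hA, ← dyadic_sum, ← Finset.sum_sub_distrib]
      refine (Finset.abs_sum_le_sum_abs _ _).trans ?_
      have h3 : ∀ j ∈ Finset.range J, |cf L (lam j) (T / 2 ^ (j + 1))
          (nuB (ZZ (2 * T)) mu (T / 2 ^ (j + 1)) (2 * (T / 2 ^ (j + 1)))) - T / 2 ^ (j + 1)| ≤
          4 * Real.pi * C1 / L * (T / 2 ^ (j + 1)) + 2 / L * (T / 2 ^ (j + 1) * ((j : ℝ) + 1)) := by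
        intro j hj
        rw [Finset.mem_range] at hj
        have hU : 0 < T / 2 ^ (j + 1) := by positivity
        refine (cf_bound hL0 hU.le (by linarith [hlam0 j hj]) (hlam1 j hj) (hlamk j hj)
          (hnu j hj)).trans (le_of_eq ?_)
        ring
      refine (Finset.sum_le_sum h3).trans ?_
      rw [Finset.sum_add_distrib, ← Finset.mul_sum, ← Finset.mul_sum, dyadic_sum]
      have h4 := dyadic_sum2 hTpos.le J
      have h5 : 0 ≤ T / 2 ^ J := by positivity
      calc 4 * Real.pi * C1 / L * (T - T / 2 ^ J) +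
          2 / L * ∑ j ∈ Finset.range J, T / 2 ^ (j + 1) * ((j : ℝ) + 1) ≤
          4 * Real.pi * C1 / L * T + 2 / L * (2 * T) := by
            apply add_le_add
            · apply mul_le_mul_of_nonneg_left _ (by positivity)
              linarith
            · apply mul_le_mul_of_nonneg_left h4 (by positivity)
        _ = _ := by ring
    have h3 : |A - T| ≤ |A - (T - T / 2 ^ J)| + T / 2 ^ J := by
      have e : A - T = (A - (T - T / 2 ^ J)) + (-(T / 2 ^ J)) := by ring
      rw [e]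
      refine (abs_add_le _ _).trans ?_
      rw [abs_neg, abs_of_nonneg (by positivity : 0 ≤ T / 2 ^ J)]
    have h4 : 0 ≤ T / L := by positivity
    calc |A - T| ≤ (4 * Real.pi * C1 + 4) * T / L + T / L := by linarith
      _ = (4 * Real.pi * C1 + 5) * (T / L) := by ring
      _ ≤ (4 * Real.pi * C1 + C + 10) * (T / L) := by
          apply mul_le_mul_of_nonneg_right _ h4
          linarith
  · have haL1 : a ≤ L := range_le hB (by linarith) hLB ha haL
    obtain ⟨h, hh⟩ : ∃ h, h = 2 * Real.pi * a / L := ⟨_, rfl⟩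
    have hh0 : 0 < h := by rw [hh]; positivity
    have hh8 : h ≤ 7 := by
      rw [hh, div_le_iff₀ hL0]
      have h1 : Real.pi * a ≤ 3.15 * L := mul_le_mul hpi4.le haL1 ha.le (by norm_num)
      linarith
    rw [← hh]
    -- blocks
    have hbl := (blocks (S := ZZ (2 * T)) mu_nonneg (T := T) (L := L) (a := a) (C := C) (K := K)
      (C1 := C1) hTpos hL0 ha hC1.le J lam hlam0 hlam1 hlamk ?_ ?_ ?_ hnu).2
    rotate_left
    · intro j hj
      rw [← hh]
      have := hblk j hj
      refine hh8.trans (le_trans ?_ this)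
      linarith
    · intro j hj
      have h1 := hblk j hj
      have h2 := hblk2 j hj
      have hU1 : 1 ≤ T / 2 ^ (j + 1) := by linarith
      have hUT1 : T1 ≤ T / 2 ^ (j + 1) := le_trans (Real.le_sqrt_of_sq_le hTT1) h1
      have hlj : 0 < lam j := by linarith [hlam0 j hj]
      have h3 := hnv (T / 2 ^ (j + 1)) hUT1 (lam j * a) (by positivity) (by
        rw [← hlamL]
        exact range_block hB hL0 ha hlj (hlam1 j hj) haL)
      have e1 : 2 * Real.pi * (lam j * a) / Real.log (T / 2 ^ (j + 1)) = h := by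
        rw [← hlamL, hh]
        field_simp
      rw [e1] at h3
      rw [← hh]
      have e2 : ∫ t in (T / 2 ^ (j + 1))..(2 * (T / 2 ^ (j + 1))),
          (Wn (ZZ (2 * T)) mu h t - lam j * a) ^ 2 =
          ∫ t in (T / 2 ^ (j + 1))..(2 * (T / 2 ^ (j + 1))), ((cnt t h : ℝ) - lam j * a) ^ 2 := by
        refine intervalIntegral.integral_congr fun t ht => ?_
        rw [uIcc_of_le (by linarith)] at ht
        show (Wn (ZZ (2 * T)) mu h t - lam j * a) ^ 2 = ((cnt t h : ℝ) - lam j * a) ^ 2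
        rw [Wn_cnt (by linarith [ht.1]) (by linarith [ht.2]) hh0.le]
      rw [e2]
      exact h3.2
    · intro t
      rw [← hh]
      exact hWb T hT16 _ _ _ le_rfl hh0.le (by linarith)
    rw [← hh, ← hA] at hbl
    -- the whole integral
    rw [supp_int hTpos.le (by linarith)]
    set X := T / 2 ^ J with hX
    have hX0 : 0 < X := by positivity
    have hXT : X ≤ T - 8 := by linarith
    have hii : ∀ A B, IntervalIntegrable (fun t => Wn (ZZ T) mu h t ^ 2) volume A B :=
      fun A B => Wn_sq_ii _ h A B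
    have hii2 : ∀ A B, IntervalIntegrable (fun t => Wn (ZZ (2 * T)) mu h t ^ 2) volume A B :=
      fun A B => Wn_sq_ii _ h A B
    have s1 : ∫ t in (-8 : ℝ)..T, Wn (ZZ T) mu h t ^ 2 = (∫ t in (-8 : ℝ)..X, Wn (ZZ T) mu h t ^ 2) +
        (∫ t in X..(T - 8), Wn (ZZ T) mu h t ^ 2) + ∫ t in (T - 8)..T, Wn (ZZ T) mu h t ^ 2 := by
      rw [intervalIntegral.integral_add_adjacent_intervals (hii _ _) (hii _ _),
        intervalIntegral.integral_add_adjacent_intervals (hii _ _) (hii _ _)]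
    have s2 : ∫ t in X..T, Wn (ZZ (2 * T)) mu h t ^ 2 =
        (∫ t in X..(T - 8), Wn (ZZ (2 * T)) mu h t ^ 2) +
        ∫ t in (T - 8)..T, Wn (ZZ (2 * T)) mu h t ^ 2 := by
      rw [intervalIntegral.integral_add_adjacent_intervals (hii2 _ _) (hii2 _ _)]
    have s3 : ∫ t in X..(T - 8), Wn (ZZ T) mu h t ^ 2 =
        ∫ t in X..(T - 8), Wn (ZZ (2 * T)) mu h t ^ 2 := by
      refine intervalIntegral.integral_congr fun t ht => ?_
      rw [uIcc_of_le (by linarith)] at ht
      show Wn (ZZ T) mu h t ^ 2 = Wn (ZZ (2 * T)) mu h t ^ 2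
      rw [Wn_same (by linarith [ht.2]) hTpos.le]
    have hb1 : ∀ t, Wn (ZZ T) mu h t ^ 2 ≤ K ^ 2 * L ^ 2 := by
      intro t
      rw [← mul_pow]
      exact pow_le_pow_left₀ (Wn_nonneg _ mu_nonneg h t)
        (hWb T hT16 _ _ _ (by linarith) hh0.le (by linarith)) 2
    have hb2 : ∀ t, Wn (ZZ (2 * T)) mu h t ^ 2 ≤ K ^ 2 * L ^ 2 := by
      intro t
      rw [← mul_pow]
      exact pow_le_pow_left₀ (Wn_nonneg _ mu_nonneg h t)
        (hWb T hT16 _ _ _ (by linarith) hh0.le (by linarith)) 2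
    have b1 := abs_int_le (f := fun t => Wn (ZZ T) mu h t ^ 2) (A := -8) (B := X) (by linarith)
      (fun t => sq_nonneg _) hb1
    have b2 := abs_int_le (f := fun t => Wn (ZZ T) mu h t ^ 2) (A := T - 8) (B := T) (by linarith)
      (fun t => sq_nonneg _) hb1
    have b3 := abs_int_le (f := fun t => Wn (ZZ (2 * T)) mu h t ^ 2) (A := T - 8) (B := T)
      (by linarith) (fun t => sq_nonneg _) hb2
    -- errors
    have hlog : X / Real.pi ^ 2 * Real.log (1 + a) ≤ T := by
      have h1 : Real.log (1 + a) ≤ a := by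
        have := Real.log_le_sub_one_of_pos (show 0 < 1 + a by linarith)
        linarith
      calc X / Real.pi ^ 2 * Real.log (1 + a) ≤ X / 1 * L :=
            mul_le_mul (div_le_div_of_nonneg_left hX0.le one_pos hpisq) (by linarith)
              (Real.log_nonneg (by linarith)) (by positivity)
        _ = X * L := by rw [div_one]
        _ ≤ 2 * Real.sqrt T * L := mul_le_mul_of_nonneg_right hXup hL0.le
        _ = Real.sqrt T * (2 * L) := by ring
        _ ≤ T := hgen _ h2LQ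
    have hlog0 : 0 ≤ X / Real.pi ^ 2 * Real.log (1 + a) :=
      mul_nonneg (by positivity) (Real.log_nonneg (by linarith))
    have hJa : (J : ℝ) * (8 * Real.pi * K * a ^ 2) ≤ T := by
      calc (J : ℝ) * (8 * Real.pi * K * a ^ 2) ≤ L * (8 * Real.pi * K * L ^ 2) := by gcongr
        _ = 1 * (8 * Real.pi * K * L ^ 3) := by ring
        _ ≤ Real.sqrt T * (8 * Real.pi * K * L ^ 3) := by gcongr
        _ ≤ T := by
            apply hgen
            have h1 : 8 * Real.pi * K ≤ Q := by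
              have : 0 ≤ 40 * K ^ 2 := by positivity
              linarith
            calc 8 * Real.pi * K * L ^ 3 ≤ Q * L ^ 4 := by gcongr
              _ ≤ 64 * L ^ 4 * Q := hQLQ
    have hKK : K ^ 2 * L ^ 2 * (X - -8) ≤ T := by
      calc K ^ 2 * L ^ 2 * (X - -8) ≤ K ^ 2 * L ^ 2 * (4 * Real.sqrt T) := by
            gcongr
            linarith
        _ = Real.sqrt T * (4 * K ^ 2 * L ^ 2) := by ring
        _ ≤ T := by
            apply hgen
            have h1 : 4 * K ^ 2 ≤ Q := by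
              have : 0 ≤ 8 * Real.pi * K := by positivity
              linarith
            calc 4 * K ^ 2 * L ^ 2 ≤ Q * L ^ 4 := by gcongr
              _ ≤ 64 * L ^ 4 * Q := hQLQ
    have hKK2 : K ^ 2 * L ^ 2 * (T - (T - 8)) ≤ T := by
      calc K ^ 2 * L ^ 2 * (T - (T - 8)) = 1 * (8 * K ^ 2 * L ^ 2) := by ring
        _ ≤ Real.sqrt T * (8 * K ^ 2 * L ^ 2) := by gcongr
        _ ≤ T := by
            apply hgen
            have h1 : 8 * K ^ 2 ≤ Q := by
              have : 0 ≤ 8 * Real.pi * K := by positivity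
              linarith
            calc 8 * K ^ 2 * L ^ 2 ≤ Q * L ^ 4 := by gcongr
              _ ≤ 64 * L ^ 4 * Q := hQLQ
    have c1 := abs_le.1 (b1.trans hKK)
    have c2 := abs_le.1 (b2.trans hKK2)
    have c3 := abs_le.1 (b3.trans hKK2)
    rw [s2, ← s3] at hbl
    rw [s1]
    have hC0 : (C + 1) * (T - X) ≤ (C + 1) * T := by
      apply mul_le_mul_of_nonneg_left _ (by linarith)
      linarith
    have c4 := abs_le.1 hbl
    have e5 : (T - X) / Real.pi ^ 2 * Real.log (1 + a) =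
        T / Real.pi ^ 2 * Real.log (1 + a) - X / Real.pi ^ 2 * Real.log (1 + a) := by ring
    rw [e5] at c4
    have hCT : (4 * Real.pi * C1 + C + 10) * T = 4 * Real.pi * C1 * T + C * T + 10 * T := by ring
    have hCT0 : 0 ≤ 4 * Real.pi * C1 * T := by positivity
    rw [abs_le, hCT]
    constructor <;> linarith [c1.1, c1.2, c2.1, c2.2, c3.1, c3.2, c4.1, c4.2]

end Pool.Agent.Y750.PC
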