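import Pool.Agent.W354.LS.Kern

set_option autoImplicit false

/-! # The primitive of the predicted pair count -/

open MeasureTheory Filter Topology Set

namespace Pool.Agent.Y750.PC

/-- `sinc²(πx)` -/
noncomputable def q (x : ℝ) : ℝ := Real.sinc (Real.pi * x) ^ 2

/-- the predicted number of pairs -/
noncomputable def Pc (a : ℝ) : ℝ := ∫ u in (0 : ℝ)..a, (1 - Real.sinc (Real.pi * u) ^ 2)

lemma q_cont : Continuous q := by
  unfold q
  have := Real.continuous_sinc
  fun_prop

lemma q_nonneg (x : ℝ) : 0 ≤ q x := sq_nonneg _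

lemma q_even (x : ℝ) : q (-x) = q x := by
  unfold q
  rw [show Real.pi * -x = -(Real.pi * x) by ring, Real.sinc_neg]

lemma q_int : Integrable q := Pool.Agent.W354.LS.sinc_fourier_int

lemma q_total : ∫ x, q x = 1 := by
  have h := Pool.Agent.W354.LS.sinc_ft 0
  rw [Pool.Agent.W354.LS.tri_zero] at h
  have e : ∀ v : ℝ, Complex.exp (((2 * Real.pi * (0 * v) : ℝ) : ℂ) * Complex.I) *
      ((Real.sinc (Real.pi * v) ^ 2 : ℝ) : ℂ) = ((q v : ℝ) : ℂ) := by
    intro v
    unfold q
    simp
  simp_rw [e] at h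
  rw [integral_complex_ofReal] at h
  exact_mod_cast h

lemma q_half : ∫ x in Ioi (0 : ℝ), q x = 1 / 2 := by
  have h1 := integral_comp_neg_Ioi (0 : ℝ) q
  rw [neg_zero] at h1
  simp_rw [q_even] at h1
  have h2 := intervalIntegral.integral_Iic_add_Ioi (μ := volume) (b := (0 : ℝ))
    q_int.integrableOn q_int.integrableOn
  rw [q_total, ← h1] at h2
  linarith

/-- the primitive of `q` -/
noncomputable def Qp (u : ℝ) : ℝ := ∫ x in (0 : ℝ)..u, q x

lemma Qp_tendsto : Tendsto Qp atTop (𝓝 (1 / 2)) := by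
  rw [← q_half]
  exact intervalIntegral_tendsto_integral_Ioi 0 q_int.integrableOn tendsto_id

lemma Qp_cont : Continuous Qp :=
  intervalIntegral.continuous_primitive (fun a b => q_cont.intervalIntegrable a b) 0

lemma Qp_nonneg {u : ℝ} (hu : 0 ≤ u) : 0 ≤ Qp u :=
  intervalIntegral.integral_nonneg hu fun x _ => q_nonneg x

lemma Qp_mono {u v : ℝ} (h : u ≤ v) : Qp u ≤ Qp v := by
  have h1 : Qp u + ∫ x in u..v, q x = Qp v := intervalIntegral.integral_add_adjacent_intervals
    (q_cont.intervalIntegrable _ _) (q_cont.intervalIntegrable _ _)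
  have h2 : 0 ≤ ∫ x in u..v, q x := intervalIntegral.integral_nonneg h fun x _ => q_nonneg x
  linarith

lemma Qp_le (u : ℝ) : Qp u ≤ 1 / 2 := by
  refine ge_of_tendsto Qp_tendsto ?_
  filter_upwards [eventually_ge_atTop u] with v hv
  exact Qp_mono hv

lemma c_inv (n : ℕ) {x : ℝ} (hx : x ≠ 0) : ContinuousAt (fun x : ℝ => (x ^ n)⁻¹) x :=
  (continuous_pow n).continuousAt.inv₀ (pow_ne_zero n hx)

lemma Pc_eq (a : ℝ) : Pc a = a - Qp a := by
  unfold Pc Qp
  have e : ∀ u : ℝ, 1 - Real.sinc (Real.pi * u) ^ 2 = 1 - q u := fun u => rfl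
  simp_rw [e]
  rw [intervalIntegral.integral_sub (continuous_const.intervalIntegrable _ _)
    (q_cont.intervalIntegrable _ _), intervalIntegral.integral_const, smul_eq_mul, mul_one, sub_zero]

lemma Pc_cont : Continuous Pc := by
  have : Pc = fun a => a - Qp a := funext Pc_eq
  rw [this]
  exact continuous_id.sub Qp_cont

lemma q_eq {x : ℝ} (hx : 0 < x) : q x = 1 / (2 * Real.pi ^ 2) * (x ^ 2)⁻¹ -
    1 / (2 * Real.pi ^ 2) * (Real.cos (2 * Real.pi * x) * (x ^ 2)⁻¹) := by
  have hpi := Real.pi_pos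
  have h0 : Real.pi * x ≠ 0 := by positivity
  unfold q
  rw [Real.sinc_of_ne_zero h0, div_pow]
  have h1 : Real.cos (2 * Real.pi * x) = 1 - 2 * Real.sin (Real.pi * x) ^ 2 := by
    rw [show 2 * Real.pi * x = 2 * (Real.pi * x) by ring, Real.cos_two_mul]
    have := Real.sin_sq_add_cos_sq (Real.pi * x)
    linarith
  rw [h1]
  field_simp
  ring

lemma int_inv_sq {u v : ℝ} (hu : 0 < u) (huv : u ≤ v) :
    ∫ x in u..v, (x ^ 2)⁻¹ = 1 / u - 1 / v := by
  have hd : ∀ x ∈ Set.uIcc u v, HasDerivAt (fun x : ℝ => -x⁻¹) ((x ^ 2)⁻¹) x := by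
    intro x hx
    rw [uIcc_of_le huv] at hx
    have hx0 : x ≠ 0 := by have := hx.1; intro h; linarith
    have := (hasDerivAt_inv hx0).neg
    rwa [neg_neg] at this
  have hc : ContinuousOn (fun x : ℝ => (x ^ 2)⁻¹) (Set.uIcc u v) := by
    intro x hx
    rw [uIcc_of_le huv] at hx
    have hx0 : x ≠ 0 := by have := hx.1; intro h; linarith
    exact (c_inv 2 hx0).continuousWithinAt
  rw [intervalIntegral.integral_eq_sub_of_hasDerivAt hd hc.intervalIntegrable]
  rw [one_div, one_div]
  ring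

lemma int_inv_cube {u v : ℝ} (hu : 0 < u) (huv : u ≤ v) :
    ∫ x in u..v, (x ^ 3)⁻¹ ≤ 1 / (2 * u ^ 2) := by
  have hd : ∀ x ∈ Set.uIcc u v, HasDerivAt (fun x : ℝ => -(1 / 2) * (x ^ 2)⁻¹) ((x ^ 3)⁻¹) x := by
    intro x hx
    rw [uIcc_of_le huv] at hx
    have hx0 : x ≠ 0 := by have := hx.1; intro h; linarith
    have h1 := ((hasDerivAt_pow 2 x).inv (pow_ne_zero 2 hx0)).const_mul (-(1 / 2 : ℝ))
    refine h1.congr_deriv ?_
    field_simp
    norm_num
  have hc : ContinuousOn (fun x : ℝ => (x ^ 3)⁻¹) (Set.uIcc u v) := by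
    intro x hx
    rw [uIcc_of_le huv] at hx
    have hx0 : x ≠ 0 := by have := hx.1; intro h; linarith
    exact (c_inv 3 hx0).continuousWithinAt
  rw [intervalIntegral.integral_eq_sub_of_hasDerivAt hd hc.intervalIntegrable]
  have hv : 0 < v := by linarith
  have h2 : 0 ≤ (v ^ 2)⁻¹ := by positivity
  have h3 : 1 / (2 * u ^ 2) = 1 / 2 * (u ^ 2)⁻¹ := by field_simp
  rw [h3]
  linarith

lemma int_cos {u v : ℝ} (hu : 0 < u) (huv : u ≤ v) :
    |∫ x in u..v, Real.cos (2 * Real.pi * x) * (x ^ 2)⁻¹| ≤ 1 / u ^ 2 := by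
  have hpi := Real.pi_pos
  have hpi3 := Real.pi_gt_three
  have hv : 0 < v := by linarith
  set G : ℝ → ℝ := fun x => 1 / (2 * Real.pi) * (Real.sin (2 * Real.pi * x) * (x ^ 2)⁻¹) with hG
  have hne : ∀ x ∈ Set.uIcc u v, x ≠ 0 := by
    intro x hx
    rw [uIcc_of_le huv] at hx
    have := hx.1
    intro h; linarith
  have hd : ∀ x ∈ Set.uIcc u v, HasDerivAt G (Real.cos (2 * Real.pi * x) * (x ^ 2)⁻¹ -
      1 / Real.pi * (Real.sin (2 * Real.pi * x) * (x ^ 3)⁻¹)) x := by
    intro x hx
    have hx0 := hne x hx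
    have h1 : HasDerivAt (fun x : ℝ => Real.sin (2 * Real.pi * x))
        (Real.cos (2 * Real.pi * x) * (2 * Real.pi)) x := by
      have := ((hasDerivAt_id' x).const_mul (2 * Real.pi)).sin
      simpa using this
    have h2 := (h1.mul ((hasDerivAt_pow 2 x).inv (pow_ne_zero 2 hx0))).const_mul (1 / (2 * Real.pi))
    refine h2.congr_deriv ?_
    simp only [Pi.inv_apply]
    field_simp
    ring
  have hc1 : ContinuousOn (fun x : ℝ => Real.cos (2 * Real.pi * x) * (x ^ 2)⁻¹) (Set.uIcc u v) := by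
    intro x hx
    exact ((Continuous.continuousAt (by fun_prop)).mul (c_inv 2 (hne x hx))).continuousWithinAt
  have hc2 : ContinuousOn (fun x : ℝ => 1 / Real.pi * (Real.sin (2 * Real.pi * x) * (x ^ 3)⁻¹))
      (Set.uIcc u v) := by
    intro x hx
    exact (ContinuousAt.mul continuousAt_const ((Continuous.continuousAt (by fun_prop)).mul
      (c_inv 3 (hne x hx)))).continuousWithinAt
  have hc3 : ContinuousOn (fun x : ℝ => (x ^ 3)⁻¹) (Set.uIcc u v) := by
    intro x hx
    exact (c_inv 3 (hne x hx)).continuousWithinAt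
  have h1 := intervalIntegral.integral_eq_sub_of_hasDerivAt hd
    (hc1.intervalIntegrable.sub hc2.intervalIntegrable)
  rw [intervalIntegral.integral_sub hc1.intervalIntegrable hc2.intervalIntegrable] at h1
  have h2 : |∫ x in u..v, 1 / Real.pi * (Real.sin (2 * Real.pi * x) * (x ^ 3)⁻¹)| ≤
      1 / Real.pi * (1 / (2 * u ^ 2)) := by
    rw [intervalIntegral.integral_const_mul, abs_mul, abs_of_pos (by positivity : 0 < 1 / Real.pi)]
    apply mul_le_mul_of_nonneg_left _ (by positivity)
    refine le_trans ?_ (int_inv_cube hu huv)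
    refine (intervalIntegral.abs_integral_le_integral_abs huv).trans ?_
    refine intervalIntegral.integral_mono_on huv ?_ hc3.intervalIntegrable fun x hx => ?_
    · refine (ContinuousOn.intervalIntegrable ?_).abs
      intro x hx
      exact ((Continuous.continuousAt (by fun_prop)).mul (c_inv 3 (hne x hx))).continuousWithinAt
    · have hx0 : 0 < x := by linarith [hx.1]
      rw [abs_mul, abs_of_pos (by positivity : 0 < (x ^ 3)⁻¹)]
      exact mul_le_of_le_one_left (by positivity) (Real.abs_sin_le_one _)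
  have hGb : ∀ x : ℝ, u ≤ x → |G x| ≤ 1 / (2 * Real.pi) * (1 / u ^ 2) := by
    intro x hx
    have hx0 : 0 < x := by linarith
    simp only [hG]
    rw [abs_mul, abs_of_pos (by positivity : 0 < 1 / (2 * Real.pi)), abs_mul,
      abs_of_pos (by positivity : 0 < (x ^ 2)⁻¹)]
    apply mul_le_mul_of_nonneg_left _ (by positivity)
    calc |Real.sin (2 * Real.pi * x)| * (x ^ 2)⁻¹ ≤ 1 * (x ^ 2)⁻¹ :=
          mul_le_mul_of_nonneg_right (Real.abs_sin_le_one _) (by positivity)
      _ = 1 / x ^ 2 := by rw [one_mul, one_div]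
      _ ≤ 1 / u ^ 2 := by
          apply one_div_le_one_div_of_le (by positivity)
          exact pow_le_pow_left₀ hu.le hx 2
  have h3 := hGb u le_rfl
  have h4 := hGb v huv
  have h5 : ∫ x in u..v, Real.cos (2 * Real.pi * x) * (x ^ 2)⁻¹ = G v - G u +
      ∫ x in u..v, 1 / Real.pi * (Real.sin (2 * Real.pi * x) * (x ^ 3)⁻¹) := by linarith
  rw [h5]
  have h6 : 1 / (2 * Real.pi) * (1 / u ^ 2) + 1 / (2 * Real.pi) * (1 / u ^ 2) +
      1 / Real.pi * (1 / (2 * u ^ 2)) ≤ 1 / u ^ 2 := by
    have : 1 / (2 * Real.pi) * (1 / u ^ 2) + 1 / (2 * Real.pi) * (1 / u ^ 2) +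
      1 / Real.pi * (1 / (2 * u ^ 2)) = (3 / 2 / Real.pi) * (1 / u ^ 2) := by
      field_simp
      ring
    rw [this]
    apply mul_le_of_le_one_left (by positivity)
    rw [div_le_one hpi]
    linarith
  have a1 := abs_le.1 h2
  have a2 := abs_le.1 h3
  have a3 := abs_le.1 h4
  rw [abs_le]
  constructor <;> linarith [a1.1, a1.2, a2.1, a2.2, a3.1, a3.2]

/-- the tail of `q` -/
lemma tail_est {u : ℝ} (hu : 0 < u) :
    |(1 / 2 - Qp u) - 1 / (2 * Real.pi ^ 2) * (1 / u)| ≤ 1 / u ^ 2 := by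
  have hpi := Real.pi_pos
  have hpi3 := Real.pi_gt_three
  have key : ∀ v : ℝ, u ≤ v → |(Qp v - Qp u) - 1 / (2 * Real.pi ^ 2) * (1 / u - 1 / v)| ≤
      1 / u ^ 2 := by
    intro v hv
    have hne : ∀ x ∈ Set.uIcc u v, x ≠ 0 := by
      intro x hx
      rw [uIcc_of_le hv] at hx
      have := hx.1
      intro h; linarith
    have h1 : Qp v - Qp u = ∫ x in u..v, q x := by
      have : Qp u + ∫ x in u..v, q x = Qp v := intervalIntegral.integral_add_adjacent_intervals
        (q_cont.intervalIntegrable _ _) (q_cont.intervalIntegrable _ _)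
      linarith
    have hc0 : ContinuousOn (fun x : ℝ => (x ^ 2)⁻¹) (Set.uIcc u v) := by
      intro x hx
      exact (c_inv 2 (hne x hx)).continuousWithinAt
    have hc1 : ContinuousOn (fun x : ℝ => Real.cos (2 * Real.pi * x) * (x ^ 2)⁻¹)
        (Set.uIcc u v) := by
      intro x hx
      exact ((Continuous.continuousAt (by fun_prop)).mul (c_inv 2 (hne x hx))).continuousWithinAt
    have h2 : ∫ x in u..v, q x = 1 / (2 * Real.pi ^ 2) * (1 / u - 1 / v) -
        1 / (2 * Real.pi ^ 2) * ∫ x in u..v, Real.cos (2 * Real.pi * x) * (x ^ 2)⁻¹ := by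
      rw [← int_inv_sq hu hv, ← intervalIntegral.integral_const_mul,
        ← intervalIntegral.integral_const_mul, ← intervalIntegral.integral_sub
        (hc0.intervalIntegrable.const_mul _) (hc1.intervalIntegrable.const_mul _)]
      refine intervalIntegral.integral_congr fun x hx => ?_
      rw [uIcc_of_le hv] at hx
      exact q_eq (by linarith [hx.1])
    rw [h1, h2]
    have h3 := int_cos hu hv
    have h4 : |1 / (2 * Real.pi ^ 2) * ∫ x in u..v, Real.cos (2 * Real.pi * x) * (x ^ 2)⁻¹| ≤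
        1 / u ^ 2 := by
      rw [abs_mul, abs_of_pos (by positivity : 0 < 1 / (2 * Real.pi ^ 2))]
      calc _ ≤ 1 * (1 / u ^ 2) := by
            apply mul_le_mul _ h3 (abs_nonneg _) (by norm_num)
            rw [div_le_one (by positivity)]
            nlinarith
        _ = _ := one_mul _
    rw [show 1 / (2 * Real.pi ^ 2) * (1 / u - 1 / v) -
        1 / (2 * Real.pi ^ 2) * (∫ x in u..v, Real.cos (2 * Real.pi * x) * (x ^ 2)⁻¹) -
        1 / (2 * Real.pi ^ 2) * (1 / u - 1 / v) =
        -(1 / (2 * Real.pi ^ 2) * (∫ x in u..v, Real.cos (2 * Real.pi * x) * (x ^ 2)⁻¹)) by ring,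
      abs_neg]
    exact h4
  have hlim : Tendsto (fun v : ℝ => |(Qp v - Qp u) - 1 / (2 * Real.pi ^ 2) * (1 / u - 1 / v)|)
      atTop (𝓝 |(1 / 2 - Qp u) - 1 / (2 * Real.pi ^ 2) * (1 / u - 0)|) := by
    have h1 : Tendsto (fun v : ℝ => 1 / v) atTop (𝓝 0) := by
      simp_rw [one_div]; exact tendsto_inv_atTop_zero
    exact (((Qp_tendsto.sub_const _).sub ((tendsto_const_nhds.sub h1).const_mul _))).abs
  rw [sub_zero] at hlim
  refine le_of_tendsto hlim ?_
  filter_upwards [eventually_ge_atTop u] with v hv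
  exact key v hv

/-- the primitive of the predicted number of pairs -/
theorem Pc_prim : ∀ a : ℝ, 0 ≤ a →
    |(∫ u in (0 : ℝ)..a, Pc u) - (a ^ 2 / 2 - a / 2 + 1 / (2 * Real.pi ^ 2) * Real.log (1 + a))| ≤
      3 := by
  intro a ha
  have hpi := Real.pi_pos
  have hpi3 := Real.pi_gt_three
  have hk : 1 / (2 * Real.pi ^ 2) ≤ 1 := by
    rw [div_le_one (by positivity)]
    nlinarith
  have hk0 : 0 < 1 / (2 * Real.pi ^ 2) := by positivity
  -- the tail function
  set R : ℝ → ℝ := fun u => 1 / 2 - Qp u with hR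
  have hRc : Continuous R := continuous_const.sub Qp_cont
  have hR0 : ∀ u, 0 ≤ R u := fun u => by have := Qp_le u; simp only [hR]; linarith
  have hR1 : ∀ u, 0 ≤ u → R u ≤ 1 / 2 := fun u hu => by
    have := Qp_nonneg hu; simp only [hR]; linarith
  have e1 : ∫ u in (0 : ℝ)..a, Pc u = a ^ 2 / 2 - a / 2 + ∫ u in (0 : ℝ)..a, R u := by
    have h1 : ∫ u in (0 : ℝ)..a, Pc u = ∫ u in (0 : ℝ)..a, ((u - 1 / 2) + R u) := by
      refine intervalIntegral.integral_congr fun u _ => ?_
      show Pc u = (u - 1 / 2) + R u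
      rw [Pc_eq]
      simp only [hR]
      ring
    rw [h1, intervalIntegral.integral_add (Continuous.intervalIntegrable (by fun_prop) _ _)
      (hRc.intervalIntegrable _ _), intervalIntegral.integral_sub
      (Continuous.intervalIntegrable (by fun_prop) _ _)
      (Continuous.intervalIntegrable (by fun_prop) _ _), integral_id,
      intervalIntegral.integral_const, smul_eq_mul]
    ring
  rw [e1]
  have e2 : a ^ 2 / 2 - a / 2 + (∫ u in (0 : ℝ)..a, R u) -
      (a ^ 2 / 2 - a / 2 + 1 / (2 * Real.pi ^ 2) * Real.log (1 + a)) =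
      (∫ u in (0 : ℝ)..a, R u) - 1 / (2 * Real.pi ^ 2) * Real.log (1 + a) := by ring
  rw [e2]
  rcases le_total a 1 with h1 | h1
  · have h2 : 0 ≤ ∫ u in (0 : ℝ)..a, R u := intervalIntegral.integral_nonneg ha fun u _ => hR0 u
    have h3 : ∫ u in (0 : ℝ)..a, R u ≤ ∫ _u in (0 : ℝ)..a, (1 / 2 : ℝ) :=
      intervalIntegral.integral_mono_on ha (hRc.intervalIntegrable _ _)
        (continuous_const.intervalIntegrable _ _) fun u hu => hR1 u hu.1
    rw [intervalIntegral.integral_const, smul_eq_mul] at h3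
    have h4 : 0 ≤ Real.log (1 + a) := Real.log_nonneg (by linarith)
    have h5 : Real.log (1 + a) ≤ 1 := by
      have := Real.log_le_sub_one_of_pos (show 0 < 1 + a by linarith)
      linarith
    have h6 : 0 ≤ 1 / (2 * Real.pi ^ 2) * Real.log (1 + a) := by positivity
    have h7 : 1 / (2 * Real.pi ^ 2) * Real.log (1 + a) ≤ 1 * 1 :=
      mul_le_mul hk h5 h4 (by norm_num)
    rw [abs_le]
    constructor <;> linarith
  · have h2 : 0 ≤ ∫ u in (0 : ℝ)..1, R u :=
      intervalIntegral.integral_nonneg (by norm_num) fun u _ => hR0 u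
    have h3 : ∫ u in (0 : ℝ)..1, R u ≤ ∫ _u in (0 : ℝ)..1, (1 / 2 : ℝ) :=
      intervalIntegral.integral_mono_on (by norm_num) (hRc.intervalIntegrable _ _)
        (continuous_const.intervalIntegrable _ _) fun u hu => hR1 u hu.1
    rw [intervalIntegral.integral_const, smul_eq_mul] at h3
    have h4 : (∫ u in (0 : ℝ)..1, R u) + ∫ u in (1 : ℝ)..a, R u = ∫ u in (0 : ℝ)..a, R u :=
      intervalIntegral.integral_add_adjacent_intervals (hRc.intervalIntegrable _ _)
        (hRc.intervalIntegrable _ _)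
    have hne : ∀ x ∈ Set.uIcc 1 a, x ≠ 0 := by
      intro x hx
      rw [uIcc_of_le h1] at hx
      have := hx.1
      intro h; linarith
    have hc1 : ContinuousOn (fun x : ℝ => 1 / (2 * Real.pi ^ 2) * (1 / x)) (Set.uIcc 1 a) := by
      intro x hx
      exact (ContinuousAt.mul continuousAt_const (ContinuousAt.div continuousAt_const
        continuousAt_id (hne x hx))).continuousWithinAt
    have hc2 : ContinuousOn (fun x : ℝ => (x ^ 2)⁻¹) (Set.uIcc 1 a) := by
      intro x hx
      exact (c_inv 2 (hne x hx)).continuousWithinAt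
    have h5 : ∫ u in (1 : ℝ)..a, 1 / (2 * Real.pi ^ 2) * (1 / u) =
        1 / (2 * Real.pi ^ 2) * Real.log a := by
      rw [intervalIntegral.integral_const_mul, integral_one_div_of_pos one_pos (by linarith),
        div_one]
    have h6 : |(∫ u in (1 : ℝ)..a, R u) - 1 / (2 * Real.pi ^ 2) * Real.log a| ≤ 1 := by
      rw [← h5, ← intervalIntegral.integral_sub (hRc.intervalIntegrable _ _)
        hc1.intervalIntegrable]
      refine (intervalIntegral.abs_integral_le_integral_abs h1).trans ?_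
      have h7 : ∫ u in (1 : ℝ)..a, |R u - 1 / (2 * Real.pi ^ 2) * (1 / u)| ≤
          ∫ u in (1 : ℝ)..a, (u ^ 2)⁻¹ := by
        refine intervalIntegral.integral_mono_on h1
          ((hRc.intervalIntegrable _ _).sub hc1.intervalIntegrable).abs
          hc2.intervalIntegrable fun u hu => ?_
        have := tail_est (show 0 < u by linarith [hu.1])
        rw [one_div (u ^ 2)] at this
        exact this
      refine h7.trans ?_
      rw [int_inv_sq one_pos h1]
      have : 0 ≤ 1 / a := by positivity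
      linarith
    have h8 : 0 ≤ Real.log (1 + a) - Real.log a := by
      have := Real.log_le_log (by linarith : 0 < a) (by linarith : a ≤ 1 + a)
      linarith
    have h9 : Real.log (1 + a) - Real.log a ≤ 1 := by
      rw [← Real.log_div (by linarith) (by linarith)]
      have h5 := Real.log_le_sub_one_of_pos (show 0 < (1 + a) / a by positivity)
      have h6 : (1 + a) / a - 1 = 1 / a := by field_simp; ring
      rw [h6] at h5
      have h7 : 1 / a ≤ 1 := by rw [div_le_one (by linarith)]; exact h1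
      linarith
    have h10 : 1 / (2 * Real.pi ^ 2) * (Real.log (1 + a) - Real.log a) ≤ 1 * 1 :=
      mul_le_mul hk h9 h8 (by norm_num)
    have h11 : 0 ≤ 1 / (2 * Real.pi ^ 2) * (Real.log (1 + a) - Real.log a) :=
      mul_nonneg hk0.le h8
    have a1 := abs_le.1 h6
    rw [abs_le]
    constructor
    · nlinarith [a1.1, a1.2]
    · nlinarith [a1.1, a1.2]

end Pool.Agent.Y750.PC
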