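import Pool.Agent.Y750.PC.Mom
import Pool.Agent.Y750.PC.Sinc
import Pool.Agent.Y750.PC.Bad

set_option autoImplicit false

/-! # The number of pairs at large scales -/

open MeasureTheory Filter Topology Set

namespace Pool.Agent.Y750.PC

open Pool.Agent.TH801.LU (ZZ mem_ZZ ZZ_mono mu mu_nonneg mu_one)

/-- the unit -/
noncomputable def NT (T : ℝ) : ℝ := T * Real.log T / (2 * Real.pi)

/-- the primitive of the number of pairs -/
theorem prim (B : ℝ) (hB : 1 ≤ B) : ∃ C T0 : ℝ, 0 < C ∧ 16 ≤ T0 ∧ ∀ T : ℝ, T0 ≤ T →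
    ∃ e : ℝ, |e| ≤ C * T ∧ ∀ a : ℝ, 0 ≤ a → a * Real.log a ≤ B * Real.log T →
      |(∫ u in (0 : ℝ)..a, (Prn (ZZ T) mu (2 * Real.pi / Real.log T * u) - Pc u * NT T)) +
        a / 2 * (Eqn (ZZ T) mu - NT T) - e * a ^ 2| ≤ C * (T * Real.log T) := by
  obtain ⟨C, T0, hC, hT0, hm⟩ := mom B hB
  have hpi := Real.pi_pos
  have hpi3 := Real.pi_gt_three
  refine ⟨C + 3, T0, by linarith, hT0, fun T hT => ?_⟩
  obtain ⟨A, hA, hAa⟩ := hm T hT
  have hT16 : 16 ≤ T := hT0.trans hT
  have hTpos : 0 < T := by linarith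
  have hL1 : 1 ≤ Real.log T := by
    rw [Real.le_log_iff_exp_le (by linarith)]
    linarith [Real.exp_one_lt_d9]
  set L := Real.log T with hL
  have hL0 : 0 < L := by linarith
  set c : ℝ := 2 * Real.pi / L with hc
  have hc0 : 0 < c := by positivity
  have hfr : L / (4 * Real.pi) * (T / L) = T / (4 * Real.pi) := by field_simp
  have hd4 : 1 / (4 * Real.pi) ≤ 1 := by
    rw [div_le_one (by positivity)]
    linarith
  refine ⟨L / (4 * Real.pi) * (A - T), ?_, fun a ha haL => ?_⟩
  · rw [abs_mul, abs_of_pos (by positivity : 0 < L / (4 * Real.pi))]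
    calc L / (4 * Real.pi) * |A - T| ≤ L / (4 * Real.pi) * (C * (T / L)) := by gcongr
      _ = C * T * (1 / (4 * Real.pi)) := by rw [← mul_assoc, mul_comm _ C, mul_assoc, hfr]; ring
      _ ≤ C * T * 1 := by gcongr
      _ ≤ (C + 3) * T := by nlinarith
  · rcases ha.eq_or_lt with h0 | h0
    · subst h0
      simp
      positivity
    have h1 := hAa a h0 haL
    have h2 := moment_pairs (ZZ T) mu hc0 ha
    have e1 : 2 * Real.pi * a / L = c * a := by rw [hc]; ring
    rw [e1, h2] at h1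
    obtain ⟨I, hI⟩ : ∃ I, I = ∫ u in (0 : ℝ)..a, Prn (ZZ T) mu (c * u) := ⟨_, rfl⟩
    obtain ⟨E, hE⟩ : ∃ E, E = Eqn (ZZ T) mu := ⟨_, rfl⟩
    rw [← hI, ← hE] at h1
    rw [← hE]
    have h3 := Pc_prim a ha
    obtain ⟨P, hP⟩ : ∃ P, P = ∫ u in (0 : ℝ)..a, Pc u := ⟨_, rfl⟩
    rw [← hP] at h3
    have h4 : ∫ u in (0 : ℝ)..a, (Prn (ZZ T) mu (c * u) - Pc u * NT T) = I - P * NT T := by
      rw [intervalIntegral.integral_sub (Prn_integrable _ _ _ _ _)
        ((Pc_cont.intervalIntegrable _ _).mul_const _), intervalIntegral.integral_mul_const,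
        ← hI, ← hP]
    rw [h4]
    obtain ⟨l, hl⟩ : ∃ l, l = Real.log (1 + a) := ⟨_, rfl⟩
    rw [← hl] at h1 h3
    have e2 : I - P * NT T + a / 2 * (E - NT T) - L / (4 * Real.pi) * (A - T) * a ^ 2 =
        L / (4 * Real.pi) * (c * a * E + 2 * c * I - (T / Real.pi ^ 2 * l + a ^ 2 * A)) -
        NT T * (P - (a ^ 2 / 2 - a / 2 + 1 / (2 * Real.pi ^ 2) * l)) := by
      unfold NT
      rw [hc, ← hL]
      field_simp
      ring
    rw [e2]
    have hNT0 : 0 ≤ NT T := by unfold NT; positivity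
    have hNT1 : NT T ≤ T * L := by
      unfold NT
      apply div_le_self (by positivity)
      linarith
    refine (abs_sub _ _).trans ?_
    rw [abs_mul, abs_mul, abs_of_pos (by positivity : 0 < L / (4 * Real.pi)),
      abs_of_nonneg hNT0]
    calc L / (4 * Real.pi) * |c * a * E + 2 * c * I - (T / Real.pi ^ 2 * l + a ^ 2 * A)| +
        NT T * |P - (a ^ 2 / 2 - a / 2 + 1 / (2 * Real.pi ^ 2) * l)| ≤
        L / (4 * Real.pi) * (C * T) + T * L * 3 := by gcongr
      _ = C * (T * L) * (1 / (4 * Real.pi)) + 3 * (T * L) := by ring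
      _ ≤ C * (T * L) * 1 + 3 * (T * L) := by gcongr
      _ = (C + 3) * (T * L) := by ring

lemma Prn_mono (S : Finset ℂ) {μ : ℂ → ℝ} (hμ : ∀ s, 0 ≤ μ s) {d d' : ℝ} (h : d ≤ d') :
    Prn S μ d ≤ Prn S μ d' := by
  unfold Prn
  refine Finset.sum_le_sum fun s _ => Finset.sum_le_sum fun w _ => ?_
  apply mul_le_mul_of_nonneg_left _ (mul_nonneg (hμ s) (hμ w))
  by_cases h1 : 0 < s.im - w.im ∧ s.im - w.im ≤ d
  · rw [if_pos h1, if_pos ⟨h1.1, h1.2.trans h⟩]
  · rw [if_neg h1]
    split_ifs <;> norm_num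

lemma Prn_nonneg (S : Finset ℂ) {μ : ℂ → ℝ} (hμ : ∀ s, 0 ≤ μ s) (d : ℝ) : 0 ≤ Prn S μ d := by
  unfold Prn
  refine Finset.sum_nonneg fun s _ => Finset.sum_nonneg fun w _ => ?_
  apply mul_nonneg (mul_nonneg (hμ s) (hμ w))
  split_ifs <;> norm_num

lemma Eqn_nonneg (S : Finset ℂ) {μ : ℂ → ℝ} (hμ : ∀ s, 0 ≤ μ s) : 0 ≤ Eqn S μ := by
  unfold Eqn
  refine Finset.sum_nonneg fun s _ => Finset.sum_nonneg fun w _ => ?_
  apply mul_nonneg (mul_nonneg (hμ s) (hμ w))
  split_ifs <;> norm_num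

lemma rng_mono {B L x y : ℝ} (hB : 0 ≤ B * L) (hx : 0 ≤ x) (hxy : x ≤ y)
    (hy : y * Real.log y ≤ B * L) : x * Real.log x ≤ B * L := by
  rcases le_or_gt x 1 with h | h
  · have : x * Real.log x ≤ 0 := mul_nonpos_of_nonneg_of_nonpos hx (Real.log_nonpos hx h)
    linarith
  · refine le_trans ?_ hy
    have h1 : Real.log x ≤ Real.log y := Real.log_le_log (by linarith) hxy
    have h2 : 0 ≤ Real.log x := Real.log_nonneg h.le
    exact mul_le_mul hxy h1 h2 (by linarith)

lemma rng_succ {B L a : ℝ} (hB : 1 ≤ B) (hL : 6 ≤ L) (ha : 0 ≤ a)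
    (h : a * Real.log a ≤ B * L) : (a + 1) * Real.log (a + 1) ≤ (4 * B) * L := by
  have hl2 : Real.log 2 ≤ 7 / 10 := by have := Real.log_two_lt_d9; linarith
  have hBL : L ≤ B * L := by nlinarith
  rcases le_or_gt a 3 with h3 | h3
  · have h1 : Real.log (a + 1) ≤ Real.log 4 := Real.log_le_log (by linarith) (by linarith)
    have h2 : Real.log 4 = 2 * Real.log 2 := by
      rw [show (4 : ℝ) = 2 ^ 2 by norm_num, Real.log_pow]; norm_num
    have h4 : 0 ≤ Real.log (a + 1) := Real.log_nonneg (by linarith)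
    nlinarith
  · have h1 : 1 ≤ Real.log a := by
      rw [Real.le_log_iff_exp_le (by linarith)]
      linarith [Real.exp_one_lt_d9]
    have h2 : Real.log (a + 1) ≤ Real.log a + 1 := by
      have : Real.log (a + 1) ≤ Real.log (2 * a) := Real.log_le_log (by linarith) (by linarith)
      rw [Real.log_mul (by norm_num) (by linarith)] at this
      linarith
    calc (a + 1) * Real.log (a + 1) ≤ (2 * a) * (Real.log a + 1) := by
          apply mul_le_mul (by linarith) h2 (Real.log_nonneg (by linarith)) (by linarith)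
      _ ≤ (2 * a) * (2 * Real.log a) := by
          apply mul_le_mul_of_nonneg_left _ (by linarith)
          linarith
      _ = 4 * (a * Real.log a) := by ring
      _ ≤ 4 * (B * L) := by linarith
      _ = _ := by ring

/-- the number of pairs, pointwise, and its averages, in terms of the finite set -/
theorem pairs (B : ℝ) (hB : 1 ≤ B) : ∃ C T0 : ℝ, 0 < C ∧ 16 ≤ T0 ∧ ∀ T : ℝ, T0 ≤ T →
    (∀ x y : ℝ, 0 ≤ x → x ≤ y → y * Real.log y ≤ B * Real.log T →
      |(∫ u in x..y, (Prn (ZZ T) mu (2 * Real.pi / Real.log T * u) - Pc u * NT T)) +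
        (y - x) / 2 * (Eqn (ZZ T) mu - NT T)| ≤
          C * (T * Real.log T + (y ^ 2 - x ^ 2) * T)) ∧
    (∀ a : ℝ, 0 ≤ a → a * Real.log a ≤ B * Real.log T →
      |Prn (ZZ T) mu (2 * Real.pi / Real.log T * a) - Pc a * NT T| ≤ C * (T * Real.log T)) ∧
    (∀ a : ℝ, 0 < a → a * Real.log a ≤ B * Real.log T → a ≤ Real.log T) := by
  obtain ⟨C, T0, hC, hT0, hp⟩ := prim (4 * B) (by linarith)
  have hpi := Real.pi_pos
  have hpi3 := Real.pi_gt_three
  have ev : ∀ᶠ T : ℝ in atTop, B ≤ Real.log (Real.log T) ∧ 6 ≤ Real.log T :=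
    ((Real.tendsto_log_atTop.comp Real.tendsto_log_atTop).eventually_ge_atTop B).and
      (Real.tendsto_log_atTop.eventually_ge_atTop 6)
  obtain ⟨T1, hT1⟩ := ev.exists_forall_of_atTop
  refine ⟨40 * C + 40, max T0 T1, by linarith, hT0.trans (le_max_left _ _), fun T hT => ?_⟩
  have hTT0 : T0 ≤ T := (le_max_left _ _).trans hT
  obtain ⟨hLB, hL6⟩ := hT1 T ((le_max_right _ _).trans hT)
  have hT16 : 16 ≤ T := hT0.trans hTT0
  have hTpos : 0 < T := by linarith
  obtain ⟨e, he, hpa⟩ := hp T hTT0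
  set L := Real.log T with hL
  have hL0 : 0 < L := by linarith
  have hrl : ∀ a : ℝ, 0 < a → a * Real.log a ≤ B * L → a ≤ L := fun a ha h =>
    range_le hB (by linarith) hLB ha h
  set c : ℝ := 2 * Real.pi / L with hc
  have hc0 : 0 < c := by positivity
  obtain ⟨E, hE⟩ : ∃ E, E = Eqn (ZZ T) mu := ⟨_, rfl⟩
  obtain ⟨N, hN⟩ : ∃ N, N = NT T := ⟨_, rfl⟩
  rw [← hE, ← hN] at hpa
  rw [← hE, ← hN]
  have hN0 : 0 ≤ N := by rw [hN]; unfold NT; positivity
  have hN1 : N ≤ T * L := by
    rw [hN]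
    unfold NT
    apply div_le_self (by positivity)
    linarith
  have hii : ∀ x y, IntervalIntegrable (fun u => Prn (ZZ T) mu (c * u) - Pc u * N) volume x y :=
    fun x y => (Prn_integrable _ _ _ _ _).sub ((Pc_cont.intervalIntegrable _ _).mul_const _)
  have hBL : 0 ≤ 4 * B * L := by positivity
  have hTL : 0 < T * L := by positivity
  have key : ∀ x y : ℝ, 0 ≤ x → x ≤ y → y * Real.log y ≤ 4 * B * L →
      |(∫ u in x..y, (Prn (ZZ T) mu (c * u) - Pc u * N)) + (y - x) / 2 * (E - N)| ≤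
          2 * C * (T * L) + C * ((y ^ 2 - x ^ 2) * T) := by
    intro x y hx hxy hy
    have h1 := hpa x hx (rng_mono hBL hx hxy hy)
    have h2 := hpa y (hx.trans hxy) hy
    have h3 : (∫ u in (0 : ℝ)..x, (Prn (ZZ T) mu (c * u) - Pc u * N)) +
        (∫ u in x..y, (Prn (ZZ T) mu (c * u) - Pc u * N)) =
        ∫ u in (0 : ℝ)..y, (Prn (ZZ T) mu (c * u) - Pc u * N) :=
      intervalIntegral.integral_add_adjacent_intervals (hii _ _) (hii _ _)
    rw [← h3] at h2
    obtain ⟨I1, hI1⟩ : ∃ I, I = ∫ u in (0 : ℝ)..x, (Prn (ZZ T) mu (c * u) - Pc u * N) := ⟨_, rfl⟩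
    obtain ⟨I2, hI2⟩ : ∃ I, I = ∫ u in x..y, (Prn (ZZ T) mu (c * u) - Pc u * N) := ⟨_, rfl⟩
    rw [← hI1] at h1
    rw [← hI1, ← hI2] at h2
    rw [← hI2]
    have h4 : 0 ≤ y ^ 2 - x ^ 2 := by nlinarith
    have h5 : |e * (y ^ 2 - x ^ 2)| ≤ C * ((y ^ 2 - x ^ 2) * T) := by
      rw [abs_mul, abs_of_nonneg h4]
      calc |e| * (y ^ 2 - x ^ 2) ≤ C * T * (y ^ 2 - x ^ 2) := by gcongr
        _ = _ := by ring
    have e1 : I2 + (y - x) / 2 * (E - N) = (I1 + I2 + y / 2 * (E - N) - e * y ^ 2) -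
        (I1 + x / 2 * (E - N) - e * x ^ 2) + e * (y ^ 2 - x ^ 2) := by ring
    rw [e1]
    refine (abs_add_le _ _).trans ?_
    refine (add_le_add (abs_sub _ _) h5).trans ?_
    linarith
  have hE0 : 0 ≤ E := by rw [hE]; exact Eqn_nonneg _ mu_nonneg
  -- the bound for the pairs of equal ordinates
  have hEb : E ≤ (8 * C + 4) * (T * L) := by
    have h1 := key 0 1 le_rfl zero_le_one (by rw [Real.log_one, mul_zero]; exact hBL)
    have h2 : ∫ u in (0 : ℝ)..1, (Prn (ZZ T) mu (c * u) - Pc u * N) ≥ -N := by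
      have h3 : ∫ u in (0 : ℝ)..1, (-N : ℝ) ≤
          ∫ u in (0 : ℝ)..1, (Prn (ZZ T) mu (c * u) - Pc u * N) := by
        refine intervalIntegral.integral_mono_on zero_le_one
          (continuous_const.intervalIntegrable _ _) (hii _ _) fun u hu => ?_
        have h4 := Prn_nonneg (ZZ T) mu_nonneg (c * u)
        have h5 : Pc u ≤ 1 := by
          rw [Pc_eq]
          have := Qp_nonneg hu.1
          linarith [hu.2]
        nlinarith
      rw [intervalIntegral.integral_const, smul_eq_mul] at h3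
      linarith
    have h3 := (abs_le.1 h1).2
    have h6 : C * ((1 ^ 2 - 0 ^ 2) * T) ≤ C * (T * L) := by
      apply mul_le_mul_of_nonneg_left _ hC.le
      nlinarith
    nlinarith
  refine ⟨fun x y hx hxy hy => ?_, fun a ha haL => ?_, hrl⟩
  · refine (key x y hx hxy (hy.trans (by nlinarith [mul_pos (by linarith : 0 < B) hL0]))).trans ?_
    have h4 : 0 ≤ (y ^ 2 - x ^ 2) * T := mul_nonneg (by nlinarith) hTpos.le
    nlinarith [mul_nonneg hC.le h4, mul_pos hC hTL]
  · -- pointwise
    have haL1 : a ≤ L := by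
      rcases ha.eq_or_lt with h0 | h0
      · linarith
      · exact hrl a h0 haL
    have hup := key a (a + 1) ha (by linarith) (rng_succ hB hL6 ha haL)
    have h2a : C * (((a + 1) ^ 2 - a ^ 2) * T) ≤ 3 * C * (T * L) := by
      have : ((a + 1) ^ 2 - a ^ 2) * T ≤ 3 * (T * L) := by nlinarith
      nlinarith
    have hPm : Monotone Pc := by
      intro x y hxy
      have hq1 : ∀ u, 0 ≤ 1 - Real.sinc (Real.pi * u) ^ 2 := by
        intro u
        have h1 := Real.abs_sinc_le_one (Real.pi * u)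
        have h2 := abs_le.1 h1
        nlinarith [h2.1, h2.2]
      have hcs : Continuous fun u : ℝ => 1 - Real.sinc (Real.pi * u) ^ 2 :=
        continuous_const.sub q_cont
      unfold Pc
      have h1 : (∫ u in (0 : ℝ)..x, (1 - Real.sinc (Real.pi * u) ^ 2)) +
          ∫ u in x..y, (1 - Real.sinc (Real.pi * u) ^ 2) =
          ∫ u in (0 : ℝ)..y, (1 - Real.sinc (Real.pi * u) ^ 2) :=
        intervalIntegral.integral_add_adjacent_intervals (hcs.intervalIntegrable _ _)
          (hcs.intervalIntegrable _ _)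
      have h2 : 0 ≤ ∫ u in x..y, (1 - Real.sinc (Real.pi * u) ^ 2) :=
        intervalIntegral.integral_nonneg hxy fun u _ => hq1 u
      linarith
    have hPs : ∀ x : ℝ, 0 ≤ x → Pc (x + 1) ≤ Pc x + 1 := by
      intro x hx
      rw [Pc_eq, Pc_eq]
      have := Qp_mono (show x ≤ x + 1 by linarith)
      linarith
    have hup2 : Prn (ZZ T) mu (c * a) - (Pc a + 1) * N ≤
        ∫ u in a..(a + 1), (Prn (ZZ T) mu (c * u) - Pc u * N) := by
      have h3 : ∫ u in a..(a + 1), (Prn (ZZ T) mu (c * a) - (Pc a + 1) * N) ≤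
          ∫ u in a..(a + 1), (Prn (ZZ T) mu (c * u) - Pc u * N) := by
        refine intervalIntegral.integral_mono_on (by linarith)
          (continuous_const.intervalIntegrable _ _) (hii _ _) fun u hu => ?_
        have h4 := Prn_mono (ZZ T) mu_nonneg (show c * a ≤ c * u by
          apply mul_le_mul_of_nonneg_left hu.1 hc0.le)
        have h5 : Pc u ≤ Pc a + 1 := (hPm hu.2).trans (hPs a ha)
        nlinarith
      rw [intervalIntegral.integral_const, smul_eq_mul] at h3
      linarith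
    have h3 := abs_le.1 hup
    have hP0 : 0 ≤ Pc a := by
      have h1 := hPm ha
      have h2 : Pc 0 = 0 := by unfold Pc; simp
      linarith
    rw [abs_le]
    constructor
    · -- the lower bound
      rcases le_or_gt a 1 with h1 | h1
      · have h4 := Prn_nonneg (ZZ T) mu_nonneg (c * a)
        have h5 : Pc a ≤ 1 := by
          rw [Pc_eq]
          have := Qp_nonneg ha
          linarith
        have h6 : Pc a * N ≤ T * L := by nlinarith
        nlinarith [mul_pos hC hTL]
      · have hlo := key (a - 1) a (by linarith) (by linarith)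
          (haL.trans (by nlinarith [mul_pos (by linarith : 0 < B) hL0]))
        have h2b : C * ((a ^ 2 - (a - 1) ^ 2) * T) ≤ 3 * C * (T * L) := by
          have : (a ^ 2 - (a - 1) ^ 2) * T ≤ 3 * (T * L) := by nlinarith
          nlinarith
        have hlo2 : ∫ u in (a - 1)..a, (Prn (ZZ T) mu (c * u) - Pc u * N) ≤
            Prn (ZZ T) mu (c * a) - (Pc a - 1) * N := by
          have h3 : ∫ u in (a - 1)..a, (Prn (ZZ T) mu (c * u) - Pc u * N) ≤
              ∫ u in (a - 1)..a, (Prn (ZZ T) mu (c * a) - (Pc a - 1) * N) := by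
            refine intervalIntegral.integral_mono_on (by linarith) (hii _ _)
              (continuous_const.intervalIntegrable _ _) fun u hu => ?_
            have h4 := Prn_mono (ZZ T) mu_nonneg (show c * u ≤ c * a by
              apply mul_le_mul_of_nonneg_left hu.2 hc0.le)
            have h5 : Pc a ≤ Pc u + 1 := by
              have h6 := hPs (a - 1) (by linarith)
              rw [sub_add_cancel] at h6
              have h7 := hPm hu.1
              linarith
            nlinarith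
          rw [intervalIntegral.integral_const, smul_eq_mul] at h3
          linarith
        have h4 := abs_le.1 hlo
        have e1 : (a - (a - 1)) / 2 * (E - N) = (E - N) / 2 := by ring
        rw [e1] at h4
        have e2 : (Pc a - 1) * N = Pc a * N - N := by ring
        rw [e2] at hlo2
        have e3 : (40 * C + 40) * (T * L) = 40 * (C * (T * L)) + 40 * (T * L) := by ring
        have e4 : (8 * C + 4) * (T * L) = 8 * (C * (T * L)) + 4 * (T * L) := by ring
        rw [e4] at hEb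
        rw [e3]
        have hCTL := mul_pos hC hTL
        linarith [h4.1]
    · have e1 : (a + 1 - a) / 2 * (E - N) = (E - N) / 2 := by ring
      rw [e1] at h3
      have e2 : (Pc a + 1) * N = Pc a * N + N := by ring
      rw [e2] at hup2
      have e3 : (40 * C + 40) * (T * L) = 40 * (C * (T * L)) + 40 * (T * L) := by ring
      rw [e3]
      have hCTL := mul_pos hC hTL
      linarith [h3.2]

end Pool.Agent.Y750.PC
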