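import Pool.Agent.Y750.PC.Blk

set_option autoImplicit false

/-! # Second moments of the window counts, abstractly -/

open MeasureTheory Filter Topology Set

namespace Pool.Agent.Y750.PC

/-- the number of zeros in a block -/
noncomputable def nuB (S : Finset ℂ) (μ : ℂ → ℝ) (U V : ℝ) : ℝ :=
  ∑ s ∈ S, μ s * (if U < s.im ∧ s.im ≤ V then 1 else 0)

/-- the coefficient of a block -/
noncomputable def cf (L lam U nu : ℝ) : ℝ := 2 * lam * (2 * Real.pi / L) * nu - lam ^ 2 * U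

lemma cf_bound {L lam U nu C1 k : ℝ} (hL : 0 < L) (hU : 0 ≤ U)
    (hlam0 : 0 ≤ lam) (hlam1 : lam ≤ 1) (hk : 1 - lam ≤ k / L)
    (hnu : |nu - U * (lam * L) / (2 * Real.pi)| ≤ C1 * U) :
    |cf L lam U nu - U| ≤ U * (4 * Real.pi * C1 + 2 * k) / L := by
  have hpi := Real.pi_pos
  unfold cf
  have e1 : 2 * lam * (2 * Real.pi / L) * nu - lam ^ 2 * U - U =
      2 * lam * (2 * Real.pi / L) * (nu - U * (lam * L) / (2 * Real.pi)) - U * (1 - lam ^ 2) := by
    field_simp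
    ring
  rw [e1]
  have h1 : |2 * lam * (2 * Real.pi / L) * (nu - U * (lam * L) / (2 * Real.pi))| ≤
      2 * 1 * (2 * Real.pi / L) * (C1 * U) := by
    rw [abs_mul, abs_of_nonneg (by positivity : 0 ≤ 2 * lam * (2 * Real.pi / L))]
    gcongr
  have h2 : |U * (1 - lam ^ 2)| ≤ U * (2 * (k / L)) := by
    rw [abs_mul, abs_of_nonneg hU, abs_of_nonneg (by nlinarith)]
    apply mul_le_mul_of_nonneg_left _ hU
    nlinarith
  refine (abs_sub _ _).trans ((add_le_add h1 h2).trans (le_of_eq ?_))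
  field_simp
  ring

lemma block {S : Finset ℂ} {μ : ℂ → ℝ} (hμ : ∀ s, 0 ≤ μ s) {L lam U a C K : ℝ} (hL : 0 < L)
    (hU : 0 < U) (hlam0 : 1 / 2 ≤ lam) (hlam1 : lam ≤ 1) (ha : 0 < a)
    (hUh : 2 * Real.pi * a / L ≤ U)
    (h1 : |(∫ t in U..(2 * U), (Wn S μ (2 * Real.pi * a / L) t - lam * a) ^ 2) -
      U / Real.pi ^ 2 * Real.log (1 + lam * a)| ≤ C * U)
    (h2 : Wn S μ (2 * Real.pi * a / L) U ≤ K * L)
    (h3 : Wn S μ (2 * Real.pi * a / L) (2 * U) ≤ K * L) :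
    |(∫ t in U..(2 * U), Wn S μ (2 * Real.pi * a / L) t ^ 2) -
      (U / Real.pi ^ 2 * Real.log (1 + a) + a ^ 2 * cf L lam U (nuB S μ U (2 * U)))| ≤
        (C + 1) * U + 8 * Real.pi * K * a ^ 2 := by
  have hpi := Real.pi_pos
  have hpi3 := Real.pi_gt_three
  obtain ⟨h, hh⟩ : ∃ h, h = 2 * Real.pi * a / L := ⟨_, rfl⟩
  rw [← hh] at hUh h1 h2 h3 ⊢
  have hh0 : 0 < h := by rw [hh]; positivity
  have hfm := first_moment S hμ (h := h) (U := U) (V := 2 * U) hh0.le (by linarith)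
  have e1 : ∫ t in U..(2 * U), Wn S μ h t ^ 2 = (∫ t in U..(2 * U), (Wn S μ h t - lam * a) ^ 2) +
      2 * (lam * a) * (∫ t in U..(2 * U), Wn S μ h t) - (lam * a) ^ 2 * U := by
    have e : (fun t => Wn S μ h t ^ 2) = fun t => ((Wn S μ h t - lam * a) ^ 2 +
        2 * (lam * a) * Wn S μ h t) - (lam * a) ^ 2 := by ext t; ring
    have i1 : IntervalIntegrable (fun t => (Wn S μ h t - lam * a) ^ 2) volume U (2 * U) := by
      have e' : (fun t => (Wn S μ h t - lam * a) ^ 2) = fun t => (Wn S μ h t ^ 2 -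
        2 * (lam * a) * Wn S μ h t) + (lam * a) ^ 2 := by ext t; ring
      rw [e']
      exact ((Wn_sq_ii S h _ _).sub ((Wn_ii S hμ h _ _).const_mul _)).add
        intervalIntegrable_const
    rw [e, intervalIntegral.integral_sub (i1.add ((Wn_ii S hμ h _ _).const_mul _))
      intervalIntegrable_const, intervalIntegral.integral_add i1
      ((Wn_ii S hμ h _ _).const_mul _), intervalIntegral.integral_const_mul,
      intervalIntegral.integral_const, smul_eq_mul]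
    ring
  have e2 : U / Real.pi ^ 2 * Real.log (1 + a) + a ^ 2 * cf L lam U (nuB S μ U (2 * U)) =
      U / Real.pi ^ 2 * Real.log (1 + a) + 2 * (lam * a) * (h * nuB S μ U (2 * U)) -
        (lam * a) ^ 2 * U := by
    unfold cf
    rw [hh]
    ring
  rw [e1, e2]
  unfold nuB
  obtain ⟨I1, hI1⟩ : ∃ I1, I1 = ∫ t in U..(2 * U), (Wn S μ h t - lam * a) ^ 2 := ⟨_, rfl⟩
  obtain ⟨I2, hI2⟩ : ∃ I2, I2 = ∫ t in U..(2 * U), Wn S μ h t := ⟨_, rfl⟩
  obtain ⟨n, hn⟩ : ∃ n, n = ∑ s ∈ S, μ s * (if U < s.im ∧ s.im ≤ 2 * U then (1 : ℝ) else 0) :=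
    ⟨_, rfl⟩
  rw [← hI1] at h1 ⊢
  rw [← hI2, ← hn] at hfm ⊢
  have h4 : |Real.log (1 + a) - Real.log (1 + lam * a)| ≤ 1 := by
    have hla : 0 < lam * a := by positivity
    have hle : lam * a ≤ a := mul_le_of_le_one_left ha.le hlam1
    have h5 : Real.log (1 + lam * a) ≤ Real.log (1 + a) :=
      Real.log_le_log (by linarith) (by linarith)
    have h6 : Real.log (1 + a) ≤ Real.log (2 * (1 + lam * a)) := by
      apply Real.log_le_log (by linarith)
      nlinarith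
    rw [Real.log_mul (by norm_num) (by linarith)] at h6
    have h7 : Real.log 2 ≤ 1 := by
      have := Real.log_two_lt_d9
      linarith
    rw [abs_le]
    constructor <;> linarith
  have h5 : |U / Real.pi ^ 2 * (Real.log (1 + a) - Real.log (1 + lam * a))| ≤ U := by
    rw [abs_mul, abs_of_pos (by positivity : 0 < U / Real.pi ^ 2)]
    calc U / Real.pi ^ 2 * |Real.log (1 + a) - Real.log (1 + lam * a)| ≤
        U / Real.pi ^ 2 * 1 := by gcongr
      _ ≤ U := by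
        rw [mul_one, div_le_iff₀ (by positivity)]
        exact le_mul_of_one_le_right hU.le (by nlinarith)
  have h6 : |2 * (lam * a) * (I2 - h * n)| ≤ 8 * Real.pi * K * a ^ 2 := by
    rw [abs_mul, abs_of_pos (by positivity : 0 < 2 * (lam * a))]
    calc 2 * (lam * a) * |I2 - h * n| ≤ 2 * (1 * a) * (h * (K * L + K * L)) := by
          apply mul_le_mul _ _ (abs_nonneg _) (by positivity)
          · gcongr
          · refine hfm.trans ?_
            apply mul_le_mul_of_nonneg_left _ hh0.le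
            linarith
      _ = 8 * Real.pi * K * a ^ 2 := by
          rw [hh]
          field_simp
          ring
  have e3 : I1 + 2 * (lam * a) * I2 - (lam * a) ^ 2 * U -
      (U / Real.pi ^ 2 * Real.log (1 + a) + 2 * (lam * a) * (h * n) - (lam * a) ^ 2 * U) =
      (I1 - U / Real.pi ^ 2 * Real.log (1 + lam * a)) -
      U / Real.pi ^ 2 * (Real.log (1 + a) - Real.log (1 + lam * a)) +
      2 * (lam * a) * (I2 - h * n) := by ring
  rw [e3]
  have a1 := abs_le.1 h1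
  have a2 := abs_le.1 h5
  have a3 := abs_le.1 h6
  rw [abs_le]
  constructor
  · linarith [a1.1, a1.2, a2.1, a2.2, a3.1, a3.2]
  · linarith [a1.1, a1.2, a2.1, a2.2, a3.1, a3.2]

/-- sum over the blocks -/
lemma blocks {S : Finset ℂ} {μ : ℂ → ℝ} (hμ : ∀ s, 0 ≤ μ s) {T L a C K C1 : ℝ} (hT : 0 < T)
    (hL : 0 < L) (ha : 0 < a) (hC1 : 0 ≤ C1) (J : ℕ) (lam : ℕ → ℝ)
    (hlam0 : ∀ j < J, 1 / 2 ≤ lam j) (hlam1 : ∀ j < J, lam j ≤ 1)
    (hlamk : ∀ j < J, 1 - lam j ≤ ((j : ℝ) + 1) / L)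
    (hUh : ∀ j < J, 2 * Real.pi * a / L ≤ T / 2 ^ (j + 1))
    (h1 : ∀ j < J, |(∫ t in (T / 2 ^ (j + 1))..(2 * (T / 2 ^ (j + 1))),
      (Wn S μ (2 * Real.pi * a / L) t - lam j * a) ^ 2) -
      T / 2 ^ (j + 1) / Real.pi ^ 2 * Real.log (1 + lam j * a)| ≤ C * (T / 2 ^ (j + 1)))
    (h2 : ∀ t, Wn S μ (2 * Real.pi * a / L) t ≤ K * L)
    (hnu : ∀ j < J, |nuB S μ (T / 2 ^ (j + 1)) (2 * (T / 2 ^ (j + 1))) -
      T / 2 ^ (j + 1) * (lam j * L) / (2 * Real.pi)| ≤ C1 * (T / 2 ^ (j + 1))) :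
    (|(∑ j ∈ Finset.range J, cf L (lam j) (T / 2 ^ (j + 1))
      (nuB S μ (T / 2 ^ (j + 1)) (2 * (T / 2 ^ (j + 1))))) - (T - T / 2 ^ J)| ≤
        (4 * Real.pi * C1 + 4) * T / L) ∧
    |(∫ t in (T / 2 ^ J)..T, Wn S μ (2 * Real.pi * a / L) t ^ 2) -
      ((T - T / 2 ^ J) / Real.pi ^ 2 * Real.log (1 + a) + a ^ 2 *
        ∑ j ∈ Finset.range J, cf L (lam j) (T / 2 ^ (j + 1))
      (nuB S μ (T / 2 ^ (j + 1)) (2 * (T / 2 ^ (j + 1)))))| ≤
        (C + 1) * (T - T / 2 ^ J) + J * (8 * Real.pi * K * a ^ 2) := by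
  have hpi := Real.pi_pos
  constructor
  · rw [← dyadic_sum, ← Finset.sum_sub_distrib]
    refine (Finset.abs_sum_le_sum_abs _ _).trans ?_
    have h3 : ∀ j ∈ Finset.range J, |cf L (lam j) (T / 2 ^ (j + 1))
        (nuB S μ (T / 2 ^ (j + 1)) (2 * (T / 2 ^ (j + 1)))) - T / 2 ^ (j + 1)| ≤
        4 * Real.pi * C1 / L * (T / 2 ^ (j + 1)) + 2 / L * (T / 2 ^ (j + 1) * ((j : ℝ) + 1)) := by
      intro j hj
      rw [Finset.mem_range] at hj
      have hU : 0 < T / 2 ^ (j + 1) := by positivity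
      refine (cf_bound hL hU.le (by linarith [hlam0 j hj]) (hlam1 j hj) (hlamk j hj)
        (hnu j hj)).trans (le_of_eq ?_)
      ring
    refine (Finset.sum_le_sum h3).trans ?_
    rw [Finset.sum_add_distrib, ← Finset.mul_sum, ← Finset.mul_sum, dyadic_sum]
    have h4 := dyadic_sum2 hT.le J
    have h5 : 0 ≤ T / 2 ^ J := by positivity
    calc 4 * Real.pi * C1 / L * (T - T / 2 ^ J) +
        2 / L * ∑ j ∈ Finset.range J, T / 2 ^ (j + 1) * ((j : ℝ) + 1) ≤
        4 * Real.pi * C1 / L * T + 2 / L * (2 * T) := by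
          apply add_le_add
          · apply mul_le_mul_of_nonneg_left _ (by positivity)
            linarith
          · apply mul_le_mul_of_nonneg_left h4 (by positivity)
      _ = _ := by ring
  · rw [dyadic_int (fun A B => Wn_sq_ii S _ A B), Finset.mul_sum]
    have e1 : (T - T / 2 ^ J) / Real.pi ^ 2 * Real.log (1 + a) =
        ∑ j ∈ Finset.range J, T / 2 ^ (j + 1) / Real.pi ^ 2 * Real.log (1 + a) := by
      rw [← Finset.sum_mul, ← Finset.sum_div, dyadic_sum]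
    rw [e1, ← Finset.sum_add_distrib, ← Finset.sum_sub_distrib]
    refine (Finset.abs_sum_le_sum_abs _ _).trans ?_
    have h3 : ∀ j ∈ Finset.range J, |(∫ t in (T / 2 ^ (j + 1))..(2 * (T / 2 ^ (j + 1))),
        Wn S μ (2 * Real.pi * a / L) t ^ 2) -
        (T / 2 ^ (j + 1) / Real.pi ^ 2 * Real.log (1 + a) + a ^ 2 *
        cf L (lam j) (T / 2 ^ (j + 1)) (nuB S μ (T / 2 ^ (j + 1)) (2 * (T / 2 ^ (j + 1)))))| ≤
        (C + 1) * (T / 2 ^ (j + 1)) + 8 * Real.pi * K * a ^ 2 := by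
      intro j hj
      rw [Finset.mem_range] at hj
      exact block hμ hL (by positivity) (hlam0 j hj) (hlam1 j hj) ha (hUh j hj) (h1 j hj)
        (h2 _) (h2 _)
    refine (Finset.sum_le_sum h3).trans (le_of_eq ?_)
    rw [Finset.sum_add_distrib, ← Finset.mul_sum, dyadic_sum, Finset.sum_const,
      Finset.card_range, nsmul_eq_mul]

end Pool.Agent.Y750.PC
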